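import Mathlib
import Pool.Agent.W939.PC.Core
import Pool.Agent.W939.PC.Expand

/-!
Clauses with three positions on expanding families: signs which make them unsatisfiable, and the
reduction operator on polynomials which vanish if few clauses are satisfied.
-/

set_option autoImplicit false
set_option linter.unusedSectionVars false

namespace Pool.Agent.J6H27.EP

open Finset Pool.Agent.W939.PC

section deg

variable {V : Type} [Fintype V] [DecidableEq V] (K : Type) [Field K]

theorem DegLe_mono {d d' : ℕ} (h : d ≤ d') :
    (DegLe K false d : Submodule K ((V → Bool) → K)) ≤ DegLe K false d' := by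
  apply Submodule.span_mono
  rintro f ⟨m, hm, rfl⟩
  exact ⟨m, hm.trans h, rfl⟩

variable {K}

theorem chi_mul_mem {d d' : ℕ} {f : (V → Bool) → K} (hf : f ∈ DegLe K false d) {m : V → Bool}
    (hm : (sup false m).card ≤ d') : f * chi K false m ∈ DegLe K false (d + d') := by
  refine Submodule.span_induction (p := fun f _ => f * chi K false m ∈ DegLe K false (d + d'))
    ?_ ?_ ?_ ?_ hf
  · rintro f ⟨m', hm', rfl⟩
    apply Dep_le_DegLe K false (S := sup false m' ∪ sup false m)
      ((Finset.card_union_le _ _).trans (by omega))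
    exact Dep_mul K (Dep_mono K subset_union_left (chi_mem_Dep K false m'))
      (Dep_mono K subset_union_right (chi_mem_Dep K false m))
  · rw [zero_mul]; exact Submodule.zero_mem _
  · intro x y _ _ hx hy
    rw [add_mul]; exact Submodule.add_mem _ hx hy
  · intro c x _ hx
    rw [smul_mul_assoc]; exact Submodule.smul_mem _ _ hx

theorem DegLe_mul {d d' : ℕ} {f g : (V → Bool) → K} (hf : f ∈ DegLe K false d)
    (hg : g ∈ DegLe K false d') : f * g ∈ DegLe K false (d + d') := by
  refine Submodule.span_induction (p := fun g _ => f * g ∈ DegLe K false (d + d'))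
    ?_ ?_ ?_ ?_ hg
  · rintro g ⟨m, hm, rfl⟩
    exact chi_mul_mem hf hm
  · rw [mul_zero]; exact Submodule.zero_mem _
  · intro x y _ _ hx hy
    rw [mul_add]; exact Submodule.add_mem _ hx hy
  · intro c x _ hx
    rw [mul_smul_comm]; exact Submodule.smul_mem _ _ hx

theorem DegLe_one (d : ℕ) : (1 : (V → Bool) → K) ∈ DegLe K false d :=
  Dep_le_DegLe K false (S := ∅) (by simp) (fun _ _ _ => rfl)

end deg

variable {V B : Type} [Fintype V] [DecidableEq V] [Fintype B] [DecidableEq B]

/-- The clause `b` is satisfied by `y`. -/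
def sat3 (pos : B → Fin 3 → V) (sgn : B → Fin 3 → Bool) (b : B) (y : V → Bool) : Prop :=
  ∃ p, y (pos b p) = sgn b p

theorem local3 (pos : B → Fin 3 → V) (sgn : B → Fin 3 → Bool) : Local pos (sat3 pos sgn) := by
  rintro b y y' h ⟨p, hp⟩
  exact ⟨p, by rw [← h p]; exact hp⟩

theorem flex3 (pos : B → Fin 3 → V) (sgn : B → Fin 3 → Bool) : Flexible pos (sat3 pos sgn) := by
  intro b Q hQ _
  have h1 : 0 < Q.card := by
    rw [Fintype.card_fin] at hQ
    omega
  obtain ⟨p, hp⟩ := Finset.card_pos.1 h1
  refine ⟨fun _ => sgn b p, fun y => ⟨p, ?_⟩⟩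
  have : pos b p ∈ Q.image (pos b) := mem_image_of_mem _ hp
  simp [ov, this]

/-- Signs which make the clauses unsatisfiable. -/
theorem exists_unsat (pos : B → Fin 3 → V)
    (h : 2 ^ Fintype.card V * 7 ^ Fintype.card B < 8 ^ Fintype.card B) :
    ∃ sgn : B → Fin 3 → Bool, ∀ y, ∃ b, ¬ sat3 pos sgn b y := by
  classical
  by_contra hcon
  push Not at hcon
  let ok : (V → Bool) → Finset (B → Fin 3 → Bool) := fun y =>
    Fintype.piFinset (fun b => univ.erase (fun p => !(y (pos b p))))
  have hcov : (univ : Finset (B → Fin 3 → Bool)) ⊆ univ.biUnion ok := by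
    intro sgn _
    obtain ⟨y, hy⟩ := hcon sgn
    rw [mem_biUnion]
    refine ⟨y, mem_univ _, ?_⟩
    rw [Fintype.mem_piFinset]
    intro b
    rw [mem_erase]
    refine ⟨?_, mem_univ _⟩
    intro he
    obtain ⟨p, hp⟩ := hy b
    rw [he] at hp
    cases h' : y (pos b p) <;> simp [h'] at hp
  have hcard : ∀ y, (ok y).card = 7 ^ Fintype.card B := by
    intro y
    simp only [ok]
    rw [Fintype.card_piFinset]
    have : ∀ b : B, ((univ : Finset (Fin 3 → Bool)).erase (fun p => !(y (pos b p)))).card = 7 := by
      intro b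
      rw [card_erase_of_mem (mem_univ _), card_univ]
      simp
    rw [prod_congr rfl (fun b _ => this b), prod_const, card_univ]
  have h1 := (card_le_card hcov).trans card_biUnion_le
  rw [sum_congr rfl (fun y _ => hcard y), sum_const, card_univ, card_univ, Fintype.card_fun,
    Fintype.card_fun, Fintype.card_fun, Fintype.card_bool, Fintype.card_fin, smul_eq_mul] at h1
  norm_num at h1
  omega

variable {K : Type} [Field K] {pos : B → Fin 3 → V} {sgn : B → Fin 3 → Bool} {s : ℕ}

/-- Indicator of the violation of the clause `b`. -/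
noncomputable def viol (K : Type) [Field K] (pos : B → Fin 3 → V) (sgn : B → Fin 3 → Bool) (b : B) :
    (V → Bool) → K := by
  classical exact fun y => if sat3 pos sgn b y then 0 else 1

theorem viol_dep (b : B) : viol K pos sgn b ∈ Dep K (univ.image (pos b)) := by
  classical
  intro y y' h
  have h1 : sat3 pos sgn b y ↔ sat3 pos sgn b y' := by
    constructor
    · exact local3 pos sgn b y y' (fun p => h _ (mem_image_of_mem _ (mem_univ p)))
    · exact local3 pos sgn b y' y (fun p => (h _ (mem_image_of_mem _ (mem_univ p))).symm)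
  simp only [viol, h1]

theorem card_pos_le (b : B) : (univ.image (pos b)).card ≤ 3 := by
  refine card_image_le.trans ?_
  rw [card_univ, Fintype.card_fin]

theorem Rd_viol (hE : Expd pos s) {d : ℕ} (hd : 4 * (d + 3) ≤ s) (b : B) {g : (V → Bool) → K}
    (hg : g ∈ DegLe K false d) : Rd K false pos (sat3 pos sgn) s (viol K pos sgn b * g) = 0 := by
  classical
  refine Submodule.span_induction (p := fun g _ =>
    Rd K false pos (sat3 pos sgn) s (viol K pos sgn b * g) = 0) ?_ ?_ ?_ ?_ hg
  · rintro g ⟨m, hm, rfl⟩
    have hc : (univ.image (pos b) ∪ sup false m).card ≤ 3 + d :=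
      (card_union_le _ _).trans (Nat.add_le_add (card_pos_le b) hm)
    refine Rd_block (local3 pos sgn) (flex3 pos sgn) hE (by omega)
      (S := univ.image (pos b) ∪ sup false m) (by omega) (b := b) ?_ ?_ ?_
    · exact Dep_mul K (Dep_mono K subset_union_left (viol_dep b))
        (Dep_mono K subset_union_right (chi_mem_Dep K false m))
    · intro y hy
      simp [viol, hy]
    · have : (univ.filter (fun p => pos b p ∉ univ.image (pos b) ∪ sup false m)) = ∅ := by
        rw [filter_eq_empty_iff]
        intro p _ hp
        exact hp (mem_union_left _ (mem_image_of_mem _ (mem_univ p)))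
      rw [this, card_empty, Fintype.card_fin]
      norm_num
  · rw [mul_zero, map_zero]
  · intro x y _ _ hx hy
    rw [mul_add, map_add, hx, hy, add_zero]
  · intro c x _ hx
    rw [mul_smul_comm, map_smul, hx, smul_zero]

/-- Polynomials which vanish if a few clauses are satisfied reduce to zero. -/
theorem Rd_axiom (hE : Expd pos s) (T : Finset B) : ∀ d : ℕ, 4 * (d + 3 * T.card) ≤ s →
    ∀ g : (V → Bool) → K, g ∈ DegLe K false d → (∀ y, (∀ b ∈ T, sat3 pos sgn b y) → g y = 0) →
    Rd K false pos (sat3 pos sgn) s g = 0 := by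
  classical
  induction T using Finset.induction_on with
  | empty =>
    intro d _ g _ h
    have : g = 0 := by
      funext y
      exact h y (by simp)
    rw [this, map_zero]
  | insert b T hb ih =>
    intro d hd g hg h
    rw [card_insert_of_notMem hb] at hd
    have e : g = viol K pos sgn b * g + (1 - viol K pos sgn b) * g := by ring
    have h1 : (1 - viol K pos sgn b) * g ∈ DegLe K false (3 + d) := by
      apply DegLe_mul _ hg
      apply Submodule.sub_mem _ (DegLe_one 3)
      exact Dep_le_DegLe K false (card_pos_le b) (viol_dep b)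
    rw [e, map_add, Rd_viol hE (by omega) b hg, zero_add]
    apply ih (3 + d) (by omega) _ h1
    intro y hy
    simp only [Pi.mul_apply, Pi.sub_apply, Pi.one_apply]
    by_cases hs : sat3 pos sgn b y
    · rw [h y, mul_zero]
      intro b' hb'
      rcases mem_insert.1 hb' with rfl | h2
      · exact hs
      · exact hy b' h2
    · simp [viol, hs]

theorem Rd_mulD (hE : Expd pos s) {d z : ℕ} (hd : 4 * (d + z) ≤ s) {g f : (V → Bool) → K}
    (hg : g ∈ DegLe K false z) (hf : f ∈ DegLe K false d)
    (h0 : Rd K false pos (sat3 pos sgn) s f = 0) :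
    Rd K false pos (sat3 pos sgn) s (g * f) = 0 := by
  refine Submodule.span_induction (p := fun g _ =>
    Rd K false pos (sat3 pos sgn) s (g * f) = 0) ?_ ?_ ?_ ?_ hg
  · rintro g ⟨m, hm, rfl⟩
    exact Rd_mul_zero (local3 pos sgn) (flex3 pos sgn) hE hd hm (chi_mem_Dep K false m) hf h0
  · rw [zero_mul, map_zero]
  · intro x y _ _ hx hy
    rw [add_mul, map_add, hx, hy, add_zero]
  · intro c x _ hx
    rw [smul_mul_assoc, map_smul, hx, smul_zero]

end Pool.Agent.J6H27.EP
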