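import Mathlib
import Pool.Agent.J6H27.EP.Base

/-!
A switching lemma for conjunctions of local functions after a restriction of a formula which was
lifted by parities.
-/

set_option autoImplicit false
set_option linter.unusedSectionVars false

namespace Pool.Agent.J6H27.EP

open Finset Pool.Agent.W939.PC

/-- `g` depends on at most `κ` variables. -/
def Loc {I : Type} (κ : ℕ) (g : (I → Bool) → Bool) : Prop :=
  ∃ J : Finset I, J.card ≤ κ ∧ ∀ x x' : I → Bool, (∀ i ∈ J, x i = x' i) → g x = g x'

theorem Loc.mono {I : Type} {κ κ' : ℕ} (h : κ ≤ κ') {g : (I → Bool) → Bool} (hg : Loc κ g) :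
    Loc κ' g := by
  obtain ⟨J, h1, h2⟩ := hg
  exact ⟨J, h1.trans h, h2⟩

/-- Bits as elements of `ZMod 2`. -/
def bz (b : Bool) : ZMod 2 := if b then 1 else 0

theorem bz_xor (a b : Bool) : bz (xor a b) = bz a + bz b := by
  cases a <;> cases b <;> decide

theorem bz_inj {a b : Bool} (h : bz a = bz b) : a = b := by
  revert h
  cases a <;> cases b <;> decide

variable {ℓ : ℕ}

/-- The parity of a block. -/
def par (u : Fin ℓ → Bool) : Bool := decide (∑ i, bz (u i) = 1)

theorem bz_par (u : Fin ℓ → Bool) : bz (par u) = ∑ i, bz (u i) := by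
  have h : ∀ z : ZMod 2, bz (decide (z = 1)) = z := by decide
  exact h _

/-- Restrictions of a block: a free position and bits at the other positions. -/
abbrev Om (ℓ : ℕ) : Type := Fin ℓ × (Fin ℓ → Bool)

/-- The assignment given by a restriction and the parities of the blocks. -/
def Phi {V : Type} (ρ : V → Om ℓ) (y : V → Bool) : V × Fin ℓ → Bool := fun j =>
  xor ((ρ j.1).2 j.2) (decide (j.2 = (ρ j.1).1) && xor (y j.1) (par (ρ j.1).2))

theorem par_Phi {V : Type} (ρ : V → Om ℓ) (y : V → Bool) (v : V) :
    par (fun i => Phi ρ y (v, i)) = y v := by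
  apply bz_inj
  rw [bz_par]
  have h1 : ∀ i, bz (Phi ρ y (v, i)) = bz ((ρ v).2 i) +
      (if i = (ρ v).1 then bz (xor (y v) (par (ρ v).2)) else 0) := by
    intro i
    simp only [Phi]
    rw [bz_xor]
    by_cases h : i = (ρ v).1
    · simp [h]
    · simp [h, bz]
  rw [sum_congr rfl (fun i _ => h1 i), sum_add_distrib, sum_ite_eq' univ, if_pos (mem_univ _),
    bz_xor, bz_par, add_comm (bz (y v)), ← add_assoc, CharTwo.add_self_eq_zero, zero_add]

theorem Phi_ne {V : Type} {ρ : V → Om ℓ} {y : V → Bool} {v : V} {i : Fin ℓ} (h : i ≠ (ρ v).1) :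
    Phi ρ y (v, i) = (ρ v).2 i := by
  simp [Phi, h]

theorem Phi_congr {V : Type} {ρ : V → Om ℓ} {y y' : V → Bool} {j : V × Fin ℓ}
    (h : y j.1 = y' j.1) : Phi ρ y j = Phi ρ y' j := by
  simp [Phi, h]

variable {V : Type} [Fintype V] [DecidableEq V]

/-- A function which is not always true is false after some local restriction. -/
theorem exists_kill {κ : ℕ} (hκ : κ < ℓ) {J : Finset (V × Fin ℓ)} (hJ : J.card ≤ κ)
    {g : (V × Fin ℓ → Bool) → Bool} (hg : ∀ x x', (∀ i ∈ J, x i = x' i) → g x = g x')
    {x0 : V × Fin ℓ → Bool} (h0 : g x0 = false) :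
    ∃ r : V → Om ℓ, ∀ ρ : V → Om ℓ, (∀ v ∈ J.image Prod.fst, ρ v = r v) →
      ∀ y, g (Phi ρ y) = false := by
  have h1 : ∀ v : V, ∃ a : Fin ℓ, (v, a) ∉ J := by
    intro v
    by_contra hcon
    push Not at hcon
    have h2 : (univ : Finset (Fin ℓ)).card ≤ J.card := by
      apply card_le_card_of_injOn (fun a => (v, a)) (fun a _ => hcon a)
      intro a _ b _ hab
      exact (Prod.mk.inj hab).2
    rw [card_univ, Fintype.card_fin] at h2
    omega
  choose a ha using h1
  refine ⟨fun v => (a v, fun i => x0 (v, i)), fun ρ hρ y => ?_⟩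
  rw [← h0]
  apply hg
  rintro ⟨v, i⟩ hi
  have h2 := hρ v (mem_image.2 ⟨(v, i), hi, rfl⟩)
  have h3 : i ≠ (ρ v).1 := by
    rw [h2]
    rintro rfl
    exact ha v hi
  rw [Phi_ne h3, h2]

/-- Avoiding disjoint patterns is unlikely. -/
theorem avoid {Ω ι : Type} [Fintype Ω] [DecidableEq Ω] [DecidableEq ι] (T : ι → Finset V)
    (r : ι → V → Ω) (q : ℕ) (S : Finset ι) (hdis : (S : Set ι).PairwiseDisjoint T)
    (hq : ∀ i ∈ S, Fintype.card Ω ^ (T i).card ≤ q) :
    (univ.filter (fun ρ : V → Ω => ∀ i ∈ S, ∃ v ∈ T i, ρ v ≠ r i v)).card * q ^ S.card ≤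
      (q - 1) ^ S.card * Fintype.card Ω ^ Fintype.card V := by
  classical
  induction S using Finset.induction_on with
  | empty =>
    simp
  | insert j S hj ih =>
    have hdis' : (S : Set ι).PairwiseDisjoint T := hdis.subset (by simp)
    have ih' := ih hdis' (fun i hi => hq i (mem_insert_of_mem hi))
    set A : Finset (V → Ω) := univ.filter (fun ρ : V → Ω => ∀ i ∈ S, ∃ v ∈ T i, ρ v ≠ r i v)
      with hA
    set C : Finset (V → Ω) := A.filter (fun ρ => ∀ v ∈ T j, ρ v = r j v) with hC
    have e1 : univ.filter (fun ρ : V → Ω => ∀ i ∈ insert j S, ∃ v ∈ T i, ρ v ≠ r i v) = A \ C := by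
      ext ρ
      simp only [hA, hC, mem_filter, mem_univ, true_and, mem_sdiff, mem_insert,
        forall_eq_or_imp, not_and, not_forall]
      constructor
      · rintro ⟨⟨v, hv, hv'⟩, h2⟩
        exact ⟨h2, fun _ => ⟨v, hv, hv'⟩⟩
      · rintro ⟨h2, h3⟩
        obtain ⟨v, hv, hv'⟩ := h3 h2
        exact ⟨⟨v, hv, hv'⟩, h2⟩
    have hCA : C ⊆ A := filter_subset _ _
    have h1 : A.card ≤ q * C.card := by
      apply card_le_mul_card_image_of_maps_to
        (f := fun ρ : V → Ω => fun v => if v ∈ T j then r j v else ρ v)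
      · intro ρ hρ
        rw [hC, mem_filter]
        refine ⟨?_, ?_⟩
        · simp only [hA, mem_filter, mem_univ, true_and] at hρ ⊢
          intro i hi
          obtain ⟨v, hv, hv'⟩ := hρ i hi
          refine ⟨v, hv, ?_⟩
          have hij : i ≠ j := by rintro rfl; exact hj hi
          have hd := hdis (mem_coe.2 (mem_insert_of_mem hi)) (mem_coe.2 (mem_insert_self j S)) hij
          have : v ∉ T j := fun h => (Finset.disjoint_left.1 hd hv) h
          simpa [this] using hv'
        · intro v hv
          simp [hv]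
      · intro τ hτ
        refine le_trans ?_ (hq j (mem_insert_self j S))
        have h2 : (univ : Finset (T j → Ω)).card = Fintype.card Ω ^ (T j).card := by
          rw [card_univ, Fintype.card_fun, Fintype.card_coe]
        rw [← h2]
        apply card_le_card_of_injOn (fun ρ => fun v : T j => ρ v.1) (fun _ _ => mem_univ _)
        intro ρ hρ ρ' hρ' he
        simp only [coe_filter, Set.mem_ofPred_eq] at hρ hρ'
        funext v
        by_cases hv : v ∈ T j
        · exact congrFun he ⟨v, hv⟩
        · have a1 := congrFun hρ.2 v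
          have a2 := congrFun hρ'.2 v
          simp only [hv, if_false] at a1 a2
          rw [a1, a2]
    rw [e1, card_sdiff_of_subset hCA, card_insert_of_notMem hj]
    have hq0 : 1 ≤ q ∨ q = 0 := by omega
    rcases hq0 with hq0 | hq0
    · obtain ⟨p, rfl⟩ : ∃ p, q = p + 1 := ⟨q - 1, by omega⟩
      have h3 : (A.card - C.card) * (p + 1) ≤ p * A.card := by
        have h4 : C.card ≤ A.card := card_le_card hCA
        obtain ⟨e, he⟩ : ∃ e, A.card = C.card + e := ⟨A.card - C.card, by omega⟩
        rw [he] at h1 ⊢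
        rw [Nat.add_sub_cancel_left]
        nlinarith
      calc (A.card - C.card) * (p + 1) ^ (S.card + 1)
          = ((A.card - C.card) * (p + 1)) * (p + 1) ^ S.card := by ring
        _ ≤ (p * A.card) * (p + 1) ^ S.card := Nat.mul_le_mul_right _ h3
        _ = p * (A.card * (p + 1) ^ S.card) := by ring
        _ ≤ p * ((p + 1 - 1) ^ S.card * Fintype.card Ω ^ Fintype.card V) :=
            Nat.mul_le_mul_left _ ih'
        _ = (p + 1 - 1) ^ (S.card + 1) * Fintype.card Ω ^ Fintype.card V := by
            simp only [Nat.add_sub_cancel]; ring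
    · subst hq0
      simp

theorem two_mul_pow_le (p : ℕ) : 2 * p ^ (p + 1) ≤ (p + 1) ^ (p + 1) := by
  have h : ((p : ℤ) + 1) ^ (p + 1) ≥ p ^ (p + 1) + (p + 1 : ℕ) * p ^ p := by
    have := add_pow (p : ℤ) 1 (p + 1)
    rw [this, Finset.sum_range_succ, Finset.sum_range_succ]
    have h0 : (0 : ℤ) ≤ ∑ x ∈ range p, (p : ℤ) ^ x * 1 ^ (p + 1 - x) * ((p + 1).choose x : ℤ) := by
      apply Finset.sum_nonneg
      intro i _
      positivity
    have h1 : (p : ℤ) ^ p * 1 ^ (p + 1 - p) * ((p + 1).choose p : ℤ) = (p + 1 : ℕ) * p ^ p := by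
      rw [Nat.choose_succ_self_right]
      simp; ring
    have h2 : (p : ℤ) ^ (p + 1) * 1 ^ (p + 1 - (p + 1)) * ((p + 1).choose (p + 1) : ℤ) =
        p ^ (p + 1) := by
      simp
    rw [h1, h2]
    linarith
  have h3 : ((p + 1 : ℕ) : ℤ) * (p : ℤ) ^ p ≥ (p : ℤ) ^ (p + 1) := by
    rw [pow_succ, mul_comm ((p : ℤ) ^ p)]
    apply mul_le_mul_of_nonneg_right _ (by positivity)
    push_cast
    linarith
  have : (2 : ℤ) * p ^ (p + 1) ≤ (p + 1) ^ (p + 1) := by linarith
  exact_mod_cast this

theorem pow_bound {q R n : ℕ} (hq : 1 ≤ q) (hn : q * R ≤ n) : 2 ^ R * (q - 1) ^ n ≤ q ^ n := by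
  obtain ⟨p, rfl⟩ : ∃ p, q = p + 1 := ⟨q - 1, by omega⟩
  obtain ⟨e, rfl⟩ : ∃ e, n = (p + 1) * R + e := ⟨n - (p + 1) * R, by omega⟩
  simp only [Nat.add_sub_cancel]
  rw [pow_add, pow_add, pow_mul, pow_mul, ← mul_assoc, ← mul_pow]
  exact Nat.mul_le_mul (Nat.pow_le_pow_left (two_mul_pow_le p) R)
    (Nat.pow_le_pow_left (Nat.le_succ p) e)

/-- A maximal subfamily with disjoint supports. -/
theorem exists_maxdis {ι : Type} [DecidableEq ι] (G : Finset ι) (T : ι → Finset V) :
    ∃ S ⊆ G, (S : Set ι).PairwiseDisjoint T ∧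
      ∀ g ∈ G, g ∈ S ∨ ∃ h ∈ S, ¬ Disjoint (T g) (T h) := by
  classical
  have hne : (G.powerset.filter (fun S : Finset ι => (S : Set ι).PairwiseDisjoint T)).Nonempty :=
    ⟨∅, by simp⟩
  obtain ⟨S, hS, hmax⟩ := exists_max_image _ card hne
  rw [mem_filter, mem_powerset] at hS
  refine ⟨S, hS.1, hS.2, ?_⟩
  intro g hg
  by_contra hcon
  push Not at hcon
  obtain ⟨h1, h2⟩ := hcon
  have h3 : insert g S ∈ G.powerset.filter
      (fun S : Finset ι => (S : Set ι).PairwiseDisjoint T) := by
    rw [mem_filter, mem_powerset]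
    refine ⟨insert_subset hg hS.1, ?_⟩
    rw [coe_insert]
    apply hS.2.insert_of_notMem (by simpa using h1)
    intro h hh
    exact h2 h (by simpa using hh)
  have h4 := hmax _ h3
  rw [card_insert_of_notMem h1] at h4
  omega

variable (K : Type) [Field K]

/-- The conjunction of the functions in `G` after the restriction `ρ`. -/
noncomputable def cj (G : Finset ((V × Fin ℓ → Bool) → Bool)) (ρ : V → Om ℓ) : (V → Bool) → K := by
  classical exact fun y => if ∀ g ∈ G, g (Phi ρ y) = true then 1 else 0

/-- The constants of the degrees. -/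
def Dk (ℓ q : ℕ) : ℕ → ℕ
  | 0 => 0
  | k + 1 => (k + 1) * q + Dk ℓ q k * (ℓ * ((k + 1) * q) + 1)

/-- Fix the blocks in `C`. -/
def fixC (C : Finset V) (a x : V × Fin ℓ → Bool) : V × Fin ℓ → Bool := fun j =>
  if j.1 ∈ C then a j else x j

/-- The number of patterns on `C`. -/
theorem card_pat (C : Finset V) :
    (univ.filter (fun a : V × Fin ℓ → Bool => ∀ j, j.1 ∉ C → a j = false)).card ≤
      2 ^ (ℓ * C.card) := by
  classical
  have h2 : (univ : Finset ((C × Fin ℓ) → Bool)).card = 2 ^ (ℓ * C.card) := by
    rw [card_univ, Fintype.card_fun, Fintype.card_prod, Fintype.card_coe, Fintype.card_fin,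
      Fintype.card_bool, mul_comm]
  rw [← h2]
  apply card_le_card_of_injOn (fun a => fun j : C × Fin ℓ => a (j.1.1, j.2))
    (fun _ _ => mem_univ _)
  intro a ha a' ha' he
  simp only [coe_filter, Set.mem_ofPred_eq, mem_univ, true_and] at ha ha'
  funext j
  by_cases hj : j.1 ∈ C
  · exact congrFun he (⟨j.1, hj⟩, j.2)
  · rw [ha j hj, ha' j hj]

open Classical in
theorem switch (q κ : ℕ) (hq1 : 1 ≤ q) (hq : Fintype.card (Om ℓ) ^ κ ≤ q) (k : ℕ) :
    k ≤ κ → k < ℓ → ∀ (R : ℕ) (G : Finset ((V × Fin ℓ → Bool) → Bool)), (∀ g ∈ G, Loc k g) →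
      (univ.filter (fun ρ : V → Om ℓ => ¬ cj K G ρ ∈ DegLe K false (Dk ℓ q k * R))).card * 2 ^ R ≤
        Fintype.card (Om ℓ) ^ Fintype.card V := by
  induction k with
  | zero =>
    intro _ _ R G hG
    have : univ.filter (fun ρ : V → Om ℓ => ¬ cj K G ρ ∈ DegLe K false (Dk ℓ q 0 * R)) = ∅ := by
      rw [filter_eq_empty_iff]
      intro ρ _
      rw [not_not]
      apply Dep_le_DegLe K false (S := ∅) (by simp)
      intro y y' _
      have : ∀ g ∈ G, g (Phi ρ y) = g (Phi ρ y') := by
        intro g hg
        obtain ⟨J, hJ, h⟩ := hG g hg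
        apply h
        intro i hi
        rw [Finset.card_eq_zero.1 (Nat.le_zero.1 hJ)] at hi
        simp at hi
      have h2 : (∀ g ∈ G, g (Phi ρ y) = true) ↔ (∀ g ∈ G, g (Phi ρ y') = true) :=
        forall₂_congr (fun g hg => by rw [this g hg])
      simp only [cj, h2]
    rw [this]
    simp
  | succ k ih =>
    intro hk hkl R G0 hG0
    have hk' : k ≤ κ := by omega
    have hkl' : k < ℓ := by omega
    have hne : Nonempty (Om ℓ) := ⟨(⟨0, by omega⟩, fun _ => false)⟩
    have hΩ : 1 ≤ Fintype.card (Om ℓ) := Fintype.card_pos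
    -- remove the functions which are always true
    set G : Finset ((V × Fin ℓ → Bool) → Bool) := G0.filter (fun g => ∃ x, g x = false) with hGdef
    have hcj : ∀ ρ, cj K G0 ρ = cj K G ρ := by
      intro ρ
      funext y
      have : (∀ g ∈ G0, g (Phi ρ y) = true) ↔ (∀ g ∈ G, g (Phi ρ y) = true) := by
        constructor
        · intro h g hg
          exact h g (mem_filter.1 hg).1
        · intro h g hg
          by_cases hx : ∃ x, g x = false
          · exact h g (mem_filter.2 ⟨hg, hx⟩)
          · push Not at hx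
            have := hx (Phi ρ y)
            simpa using this
      simp only [cj, this]
    simp only [hcj]
    have hG : ∀ g ∈ G, ∃ J : Finset (V × Fin ℓ), J.card ≤ k + 1 ∧
        ∀ x x' : V × Fin ℓ → Bool, (∀ i ∈ J, x i = x' i) → g x = g x' :=
      fun g hg => hG0 g (mem_filter.1 hg).1
    choose! J hJc hJ using hG
    have hGx : ∀ g ∈ G, ∃ x, g x = false := fun g hg => (mem_filter.1 hg).2
    choose! x0 hx0 using hGx
    have hkill : ∀ g ∈ G, ∃ r : V → Om ℓ, ∀ ρ : V → Om ℓ,
        (∀ v ∈ (J g).image Prod.fst, ρ v = r v) → ∀ y, g (Phi ρ y) = false :=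
      fun g hg => exists_kill hkl (hJc g hg) (hJ g hg) (hx0 g hg)
    choose! r hr using hkill
    obtain ⟨S, hSG, hSd, hSm⟩ := exists_maxdis G (fun g => (J g).image Prod.fst)
    have hT : ∀ g ∈ G, ((J g).image Prod.fst).card ≤ k + 1 :=
      fun g hg => card_image_le.trans (hJc g hg)
    by_cases hS : q * R ≤ S.card
    · -- many disjoint functions
      have h1 : univ.filter (fun ρ : V → Om ℓ =>
          ¬ cj K G ρ ∈ DegLe K false (Dk ℓ q (k + 1) * R)) ⊆
          univ.filter (fun ρ : V → Om ℓ =>
            ∀ g ∈ S, ∃ v ∈ (J g).image Prod.fst, ρ v ≠ r g v) := by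
        intro ρ hρ
        simp only [mem_filter, mem_univ, true_and] at hρ ⊢
        intro g hg
        by_contra hcon
        push Not at hcon
        apply hρ
        have h2 := hr g (hSG hg) ρ hcon
        have h3 : cj K G ρ = 0 := by
          funext y
          simp only [cj, Pi.zero_apply]
          rw [if_neg]
          intro h
          have := h g (hSG hg)
          rw [h2 y] at this
          exact absurd this (by simp)
        rw [h3]
        exact Submodule.zero_mem _
      have h2 := avoid (Ω := Om ℓ) (fun g => (J g).image Prod.fst) r q S hSd (by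
        intro g hg
        refine le_trans ?_ hq
        exact Nat.pow_le_pow_right hΩ ((hT g (hSG hg)).trans hk))
      have h3 := pow_bound hq1 hS
      have h4 : 0 < q ^ S.card := by positivity
      have h5 : (univ.filter (fun ρ : V → Om ℓ =>
          ¬ cj K G ρ ∈ DegLe K false (Dk ℓ q (k + 1) * R))).card * 2 ^ R * q ^ S.card ≤
          Fintype.card (Om ℓ) ^ Fintype.card V * q ^ S.card := by
        calc _ = 2 ^ R * ((univ.filter (fun ρ : V → Om ℓ =>
              ¬ cj K G ρ ∈ DegLe K false (Dk ℓ q (k + 1) * R))).card * q ^ S.card) := by ring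
          _ ≤ 2 ^ R * ((q - 1) ^ S.card * Fintype.card (Om ℓ) ^ Fintype.card V) := by
              apply Nat.mul_le_mul_left
              exact (Nat.mul_le_mul_right _ (card_le_card h1)).trans h2
          _ = (2 ^ R * (q - 1) ^ S.card) * Fintype.card (Om ℓ) ^ Fintype.card V := by ring
          _ ≤ q ^ S.card * Fintype.card (Om ℓ) ^ Fintype.card V := Nat.mul_le_mul_right _ h3
          _ = _ := by ring
      exact Nat.le_of_mul_le_mul_right h5 h4
    · -- few disjoint functions: fix their blocks
      push Not at hS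
      set C : Finset V := S.biUnion (fun g => (J g).image Prod.fst) with hC
      have hCc : C.card ≤ (k + 1) * q * R := by
        calc C.card ≤ ∑ g ∈ S, ((J g).image Prod.fst).card := card_biUnion_le
          _ ≤ ∑ g ∈ S, (k + 1) := sum_le_sum (fun g hg => hT g (hSG hg))
          _ = S.card * (k + 1) := by rw [sum_const, smul_eq_mul]
          _ ≤ (q * R) * (k + 1) := Nat.mul_le_mul_right _ hS.le
          _ = _ := by ring
      set Pt : Finset (V × Fin ℓ → Bool) :=
        univ.filter (fun a : V × Fin ℓ → Bool => ∀ j, j.1 ∉ C → a j = false) with hPt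
      let Ga : (V × Fin ℓ → Bool) → Finset ((V × Fin ℓ → Bool) → Bool) := fun a =>
        G.image (fun g => fun x => g (fixC C a x))
      have hGa : ∀ a, ∀ g ∈ Ga a, Loc k g := by
        intro a g hg
        obtain ⟨g', hg', rfl⟩ := mem_image.1 hg
        refine ⟨(J g').filter (fun j => j.1 ∉ C), ?_, ?_⟩
        · by_cases hne : ∃ j ∈ J g', j.1 ∈ C
          · obtain ⟨j, hj, hjC⟩ := hne
            have h1 : (J g').filter (fun j => j.1 ∉ C) ⊆ (J g').erase j := by
              intro i hi
              rw [mem_filter] at hi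
              rw [mem_erase]
              refine ⟨?_, hi.1⟩
              rintro rfl
              exact hi.2 hjC
            have h2 := card_le_card h1
            rw [card_erase_of_mem hj] at h2
            have := hJc g' hg'
            omega
          · push Not at hne
            rcases hSm g' hg' with h1 | ⟨h, hh, hd⟩
            · have h2 : J g' = ∅ := by
                rw [eq_empty_iff_forall_notMem]
                intro j hj
                exact hne j hj (by
                  rw [hC, mem_biUnion]
                  exact ⟨g', h1, mem_image_of_mem _ hj⟩)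
              rw [h2]
              simp
            · exfalso
              apply hd
              rw [Finset.disjoint_left]
              intro v hv hv'
              obtain ⟨j, hj, rfl⟩ := mem_image.1 hv
              exact hne j hj (by
                rw [hC, mem_biUnion]
                exact ⟨h, hh, hv'⟩)
        · intro x x' hxx
          apply hJ g' hg'
          intro j hj
          simp only [fixC]
          split_ifs with hjC
          · rfl
          · exact hxx j (mem_filter.2 ⟨hj, hjC⟩)
      set R' : ℕ := (ℓ * ((k + 1) * q) + 1) * R with hR'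
      have hih := fun a => ih hk' hkl' R' (Ga a) (hGa a)
      -- the decomposition
      have hdec : ∀ ρ : V → Om ℓ, (∀ a ∈ Pt, cj K (Ga a) ρ ∈ DegLe K false (Dk ℓ q k * R')) →
          cj K G ρ ∈ DegLe K false (Dk ℓ q (k + 1) * R) := by
        intro ρ hρ
        have e1 : cj K G ρ = ∑ a ∈ Pt, (fun y : V → Bool =>
            if (∀ j : V × Fin ℓ, j.1 ∈ C → Phi ρ y j = a j) then (1 : K) else 0) *
              cj K (Ga a) ρ := by
          funext y
          rw [Finset.sum_apply]
          let a0 : V × Fin ℓ → Bool := fun j => if j.1 ∈ C then Phi ρ y j else false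
          have ha0 : a0 ∈ Pt := by
            rw [hPt, mem_filter]
            refine ⟨mem_univ _, fun j hj => ?_⟩
            simp [a0, hj]
          rw [sum_eq_single a0]
          · have h1 : (∀ j : V × Fin ℓ, j.1 ∈ C → Phi ρ y j = a0 j) := by
              intro j hj
              simp [a0, hj]
            have h2 : fixC C a0 (Phi ρ y) = Phi ρ y := by
              funext j
              simp only [fixC]
              split_ifs with hj
              · exact (h1 j hj).symm
              · rfl
            have h3 : (∀ g ∈ Ga a0, g (Phi ρ y) = true) ↔ (∀ g ∈ G, g (Phi ρ y) = true) := by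
              simp only [Ga, mem_image, forall_exists_index, and_imp, forall_apply_eq_imp_iff₂, h2]
            simp only [Pi.mul_apply, cj, h3]
            rw [if_pos h1, one_mul]
          · intro a ha hne
            simp only [Pi.mul_apply]
            rw [if_neg, zero_mul]
            intro h
            apply hne
            funext j
            by_cases hj : j.1 ∈ C
            · simp only [a0, hj, if_true]
              exact (h j hj).symm
            · simp only [a0, hj, if_false]
              rw [hPt, mem_filter] at ha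
              exact ha.2 j hj
          · intro h
            exact absurd ha0 h
        rw [e1]
        apply Submodule.sum_mem
        intro a ha
        have h1 : (fun y : V → Bool =>
            if (∀ j : V × Fin ℓ, j.1 ∈ C → Phi ρ y j = a j) then (1 : K) else 0) ∈
            DegLe K false ((k + 1) * q * R) := by
          apply Dep_le_DegLe K false hCc
          intro y y' hyy
          have : (∀ j : V × Fin ℓ, j.1 ∈ C → Phi ρ y j = a j) ↔
              (∀ j : V × Fin ℓ, j.1 ∈ C → Phi ρ y' j = a j) := by
            apply forall₂_congr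
            intro j hj
            rw [Phi_congr (hyy j.1 hj)]
          simp only [this]
        refine DegLe_mono K ?_ (DegLe_mul h1 (hρ a ha))
        rw [hR', Dk]
        apply le_of_eq
        ring
      have hsub : univ.filter (fun ρ : V → Om ℓ =>
          ¬ cj K G ρ ∈ DegLe K false (Dk ℓ q (k + 1) * R)) ⊆
          Pt.biUnion (fun a => univ.filter (fun ρ : V → Om ℓ =>
            ¬ cj K (Ga a) ρ ∈ DegLe K false (Dk ℓ q k * R'))) := by
        intro ρ hρ
        simp only [mem_filter, mem_univ, true_and] at hρ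
        rw [mem_biUnion]
        by_contra hcon
        push Not at hcon
        apply hρ
        apply hdec
        intro a ha
        by_contra h
        exact hcon a ha (mem_filter.2 ⟨mem_univ _, h⟩)
      have h1 := (card_le_card hsub).trans card_biUnion_le
      have h2 : (univ.filter (fun ρ : V → Om ℓ =>
          ¬ cj K G ρ ∈ DegLe K false (Dk ℓ q (k + 1) * R))).card * 2 ^ R' ≤
          Pt.card * Fintype.card (Om ℓ) ^ Fintype.card V := by
        calc _ ≤ (∑ a ∈ Pt, (univ.filter (fun ρ : V → Om ℓ =>
              ¬ cj K (Ga a) ρ ∈ DegLe K false (Dk ℓ q k * R'))).card) * 2 ^ R' :=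
              Nat.mul_le_mul_right _ h1
          _ = ∑ a ∈ Pt, (univ.filter (fun ρ : V → Om ℓ =>
              ¬ cj K (Ga a) ρ ∈ DegLe K false (Dk ℓ q k * R'))).card * 2 ^ R' := by
              rw [sum_mul]
          _ ≤ ∑ a ∈ Pt, Fintype.card (Om ℓ) ^ Fintype.card V := sum_le_sum (fun a _ => hih a)
          _ = _ := by rw [sum_const, smul_eq_mul]
      have h3 : Pt.card ≤ 2 ^ (ℓ * ((k + 1) * q) * R) := by
        refine (card_pat C).trans (Nat.pow_le_pow_right (by norm_num) ?_)
        calc ℓ * C.card ≤ ℓ * ((k + 1) * q * R) := Nat.mul_le_mul_left _ hCc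
          _ = _ := by ring
      have h4 : R' = ℓ * ((k + 1) * q) * R + R := by rw [hR']; ring
      rw [h4, pow_add] at h2
      have h5 : (univ.filter (fun ρ : V → Om ℓ =>
          ¬ cj K G ρ ∈ DegLe K false (Dk ℓ q (k + 1) * R))).card * 2 ^ R *
          2 ^ (ℓ * ((k + 1) * q) * R) ≤
          Fintype.card (Om ℓ) ^ Fintype.card V * 2 ^ (ℓ * ((k + 1) * q) * R) := by
        calc _ = (univ.filter (fun ρ : V → Om ℓ =>
              ¬ cj K G ρ ∈ DegLe K false (Dk ℓ q (k + 1) * R))).card *
              (2 ^ (ℓ * ((k + 1) * q) * R) * 2 ^ R) := by ring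
          _ ≤ Pt.card * Fintype.card (Om ℓ) ^ Fintype.card V := h2
          _ ≤ 2 ^ (ℓ * ((k + 1) * q) * R) * Fintype.card (Om ℓ) ^ Fintype.card V :=
              Nat.mul_le_mul_right _ h3
          _ = _ := by ring
      exact Nat.le_of_mul_le_mul_right h5 (by positivity)

end Pool.Agent.J6H27.EP
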