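import Mathlib
import Pool.Agent.J6H27.EP.Switch

/-!
A linear map which annihilates all lines of a short derivation in the polynomial calculus with
extension variables.
-/

set_option autoImplicit false
set_option linter.unusedSectionVars false

namespace Pool.Agent.J6H27.EP

open Finset Pool.Agent.W939.PC

variable {V B : Type} [Fintype V] [DecidableEq V] [Fintype B] [DecidableEq B]
variable {K : Type} [Field K] {ℓ : ℕ}

theorem DegLe_prod {ι : Type} (S : Finset ι) (f : ι → (V → Bool) → K) (d : ℕ)
    (h : ∀ i ∈ S, f i ∈ DegLe K false d) : ∏ i ∈ S, f i ∈ DegLe K false (S.card * d) := by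
  classical
  induction S using Finset.induction_on with
  | empty => simpa using DegLe_one (K := K) (V := V) 0
  | insert j S hj ih =>
    rw [prod_insert hj, card_insert_of_notMem hj]
    have h1 := DegLe_mul (h j (mem_insert_self j S))
      (ih (fun i hi => h i (mem_insert_of_mem hi)))
    exact DegLe_mono K (by rw [Nat.succ_mul, Nat.add_comm]) h1

/-- The evaluation of polynomials after a restriction. -/
noncomputable def ev {U : Type} (K : Type) [Field K] (val : U → (V × Fin ℓ → Bool) → Bool)
    (ρ : V → Om ℓ) : MvPolynomial U K →ₐ[K] ((V → Bool) → K) :=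
  MvPolynomial.aeval (fun u => fun y : V → Bool => if val u (Phi ρ y) = true then (1 : K) else 0)

theorem ev_apply {U : Type} (val : U → (V × Fin ℓ → Bool) → Bool) (ρ : V → Om ℓ)
    (f : MvPolynomial U K) (y : V → Bool) :
    ev K val ρ f y =
      MvPolynomial.eval (fun u => if val u (Phi ρ y) = true then (1 : K) else 0) f := by
  induction f using MvPolynomial.induction_on with
  | C a => simp [ev]
  | add p q hp hq => rw [map_add, Pi.add_apply, hp, hq, map_add]
  | mul_X p i hp =>
    rw [map_mul, Pi.mul_apply, hp, map_mul]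
    simp [ev]

theorem ev_monomial {U : Type} (val : U → (V × Fin ℓ → Bool) → Bool) (ρ : V → Om ℓ)
    (m : U →₀ ℕ) (y : V → Bool) :
    ev K val ρ (MvPolynomial.monomial m 1) y =
      by classical exact if ∀ u ∈ m.support, val u (Phi ρ y) = true then 1 else 0 := by
  classical
  rw [ev_apply, MvPolynomial.eval_monomial, one_mul, Finsupp.prod]
  split_ifs with h
  · apply prod_eq_one
    intro u hu
    rw [if_pos (h u hu), one_pow]
  · push Not at h
    obtain ⟨u, hu, hv⟩ := h
    apply prod_eq_zero hu
    rw [if_neg hv]
    exact zero_pow (Finsupp.mem_support_iff.1 hu)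

theorem operator {pos : B → Fin 3 → V} {sgn : B → Fin 3 → Bool} {s : ℕ} (hE : Expd pos s)
    {q κ a b c R : ℕ} (hq1 : 1 ≤ q) (hq : Fintype.card (Om ℓ) ^ κ ≤ q) (hκ : κ < ℓ)
    {U : Type} (val : U → (V × Fin ℓ → Bool) → Bool)
    (base : Fin a → (V × Fin ℓ → Bool) → Bool) (hbase : ∀ i, Loc κ (base i))
    (wide : Fin b → Finset ((V × Fin ℓ → Bool) → Bool)) (hwide : ∀ i, ∀ g ∈ wide i, Loc κ g)
    (kind : ∀ u, Loc κ (val u) ∨ ∀ x x', (∀ i, base i x = base i x') →
      (∀ i, (∀ g ∈ wide i, g x = true) ↔ (∀ g ∈ wide i, g x' = true)) → val u x = val u x')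
    (M : Finset (U →₀ ℕ)) (hM : M.card + b < 2 ^ R)
    (hs : 8 * (Dk ℓ q κ * ((b + 1) * R) + κ * a) + 12 * c + 4 * κ ≤ s) :
    ∃ L : MvPolynomial U K →ₗ[K] ((V → Bool) → K), L 1 ≠ 0 ∧
      (∀ (f : MvPolynomial U K) (T : Finset B), f.support ⊆ M → T.card ≤ c →
        (∀ x : V × Fin ℓ → Bool, (∀ b ∈ T, sat3 pos sgn b (fun v => par (fun i => x (v, i)))) →
          MvPolynomial.eval (fun u => if val u x = true then (1 : K) else 0) f = 0) → L f = 0) ∧
      (∀ f h : MvPolynomial U K, f.support ⊆ M → h.support ⊆ M → L f = 0 → L (h * f) = 0) ∧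
      (∀ (f : MvPolynomial U K) (u : U), f.support ⊆ M → L f = 0 →
        L (MvPolynomial.X u * f) = 0) := by
  classical
  set D := Dk ℓ q κ with hD
  let Gm : (U →₀ ℕ) → Finset ((V × Fin ℓ → Bool) → Bool) := fun m =>
    (m.support.filter (fun u => Loc κ (val u))).image val
  have hGm : ∀ m, ∀ g ∈ Gm m, Loc κ g := by
    intro m g hg
    obtain ⟨u, hu, rfl⟩ := mem_image.1 hg
    exact (mem_filter.1 hu).2
  -- a good restriction
  obtain ⟨ρ, hρ1, hρ2⟩ : ∃ ρ : V → Om ℓ, (∀ m ∈ M, cj K (Gm m) ρ ∈ DegLe K false (D * R)) ∧
      (∀ i, cj K (wide i) ρ ∈ DegLe K false (D * R)) := by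
    by_contra hcon
    push Not at hcon
    have hcov : (univ : Finset (V → Om ℓ)) ⊆
        M.biUnion (fun m => univ.filter (fun ρ : V → Om ℓ =>
          ¬ cj K (Gm m) ρ ∈ DegLe K false (D * R))) ∪
        (univ : Finset (Fin b)).biUnion (fun i => univ.filter (fun ρ : V → Om ℓ =>
          ¬ cj K (wide i) ρ ∈ DegLe K false (D * R))) := by
      intro ρ _
      rw [mem_union, mem_biUnion, mem_biUnion]
      by_cases h : ∀ m ∈ M, cj K (Gm m) ρ ∈ DegLe K false (D * R)
      · right
        obtain ⟨i, hi⟩ := hcon ρ h
        exact ⟨i, mem_univ _, mem_filter.2 ⟨mem_univ _, hi⟩⟩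
      · left
        push Not at h
        obtain ⟨m, hm, hm'⟩ := h
        exact ⟨m, hm, mem_filter.2 ⟨mem_univ _, hm'⟩⟩
    have h1 := ((card_le_card hcov).trans (card_union_le _ _)).trans
      (Nat.add_le_add card_biUnion_le card_biUnion_le)
    have h2 : Fintype.card (V → Om ℓ) * 2 ^ R ≤
        (M.card + b) * Fintype.card (Om ℓ) ^ Fintype.card V := by
      rw [card_univ] at h1
      calc _ ≤ (∑ m ∈ M, (univ.filter (fun ρ : V → Om ℓ =>
              ¬ cj K (Gm m) ρ ∈ DegLe K false (D * R))).card +
            ∑ i : Fin b, (univ.filter (fun ρ : V → Om ℓ =>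
              ¬ cj K (wide i) ρ ∈ DegLe K false (D * R))).card) * 2 ^ R :=
              Nat.mul_le_mul_right _ h1
        _ = ∑ m ∈ M, (univ.filter (fun ρ : V → Om ℓ =>
              ¬ cj K (Gm m) ρ ∈ DegLe K false (D * R))).card * 2 ^ R +
            ∑ i : Fin b, (univ.filter (fun ρ : V → Om ℓ =>
              ¬ cj K (wide i) ρ ∈ DegLe K false (D * R))).card * 2 ^ R := by
              rw [add_mul, sum_mul, sum_mul]
        _ ≤ ∑ m ∈ M, Fintype.card (Om ℓ) ^ Fintype.card V +
            ∑ i : Fin b, Fintype.card (Om ℓ) ^ Fintype.card V := by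
              apply Nat.add_le_add
              · exact sum_le_sum (fun m _ => switch K q κ hq1 hq κ le_rfl hκ R (Gm m) (hGm m))
              · exact sum_le_sum (fun i _ => switch K q κ hq1 hq κ le_rfl hκ R (wide i) (hwide i))
        _ = _ := by
              rw [sum_const, sum_const, smul_eq_mul, smul_eq_mul, card_univ, Fintype.card_fin,
                ← add_mul]
    rw [Fintype.card_fun, mul_comm] at h2
    have hne : Nonempty (Om ℓ) := ⟨(⟨0, by omega⟩, fun _ => false)⟩
    have h3 : 0 < Fintype.card (Om ℓ) ^ Fintype.card V := by positivity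
    have h4 := Nat.le_of_mul_le_mul_right h2 h3
    omega
  -- the pieces
  let θ : (Fin a → Bool) × (Fin b → Bool) → (V → Bool) → K := fun α y =>
    if (∀ i, base i (Phi ρ y) = α.1 i) ∧
      (∀ i, decide (∀ g ∈ wide i, g (Phi ρ y) = true) = α.2 i) then 1 else 0
  have hsum : ∑ α, θ α = 1 := by
    funext y
    rw [Finset.sum_apply, Pi.one_apply]
    rw [sum_eq_single ((fun i => base i (Phi ρ y)),
      (fun i => decide (∀ g ∈ wide i, g (Phi ρ y) = true)))]
    · simp [θ]
    · intro α _ hne
      simp only [θ]
      rw [if_neg]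
      rintro ⟨h1, h2⟩
      apply hne
      apply Prod.ext
      · funext i; exact (h1 i).symm
      · funext i; exact (h2 i).symm
    · intro h
      exact absurd (mem_univ _) h
  set tt : ℕ := κ * a + b * (D * R) with htt
  have hθd : ∀ α, θ α ∈ DegLe K false tt := by
    intro α
    have e1 : θ α = (fun y : V → Bool => if (∀ i, base i (Phi ρ y) = α.1 i) then (1 : K) else 0) *
        ∏ i : Fin b, (if α.2 i = true then cj K (wide i) ρ else 1 - cj K (wide i) ρ) := by
      funext y
      rw [Pi.mul_apply, Finset.prod_apply]
      by_cases h1 : ∀ i, base i (Phi ρ y) = α.1 i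
      · by_cases h2 : ∀ i, decide (∀ g ∈ wide i, g (Phi ρ y) = true) = α.2 i
        · have h3 : ∀ i ∈ (univ : Finset (Fin b)),
              (if α.2 i = true then cj K (wide i) ρ else 1 - cj K (wide i) ρ) y = 1 := by
            intro i _
            have h4 := h2 i
            by_cases h5 : ∀ g ∈ wide i, g (Phi ρ y) = true
            · have h6 : α.2 i = true := by rw [← h4]; simpa using h5
              rw [if_pos h6]
              simp only [cj]
              rw [if_pos h5]
            · have h6 : ¬ α.2 i = true := by rw [← h4]; simpa using h5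
              rw [if_neg h6]
              simp only [cj, Pi.sub_apply, Pi.one_apply]
              rw [if_neg h5, sub_zero]
          rw [prod_eq_one h3]
          simp only [θ]
          rw [if_pos ⟨h1, h2⟩, if_pos h1, mul_one]
        · have h2' := h2
          push Not at h2'
          obtain ⟨i, hi⟩ := h2'
          have h3 : (if α.2 i = true then cj K (wide i) ρ else 1 - cj K (wide i) ρ) y = 0 := by
            by_cases h5 : ∀ g ∈ wide i, g (Phi ρ y) = true
            · have h6 : ¬ α.2 i = true := by
                intro h7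
                apply hi
                rw [h7]
                simpa using h5
              rw [if_neg h6]
              simp only [cj, Pi.sub_apply, Pi.one_apply]
              rw [if_pos h5, sub_self]
            · have h6 : α.2 i = true := by
                by_contra h7
                apply hi
                rw [Bool.not_eq_true] at h7
                rw [h7]
                simpa using h5
              rw [if_pos h6]
              simp only [cj]
              rw [if_neg h5]
          rw [prod_eq_zero (mem_univ i) h3, mul_zero]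
          simp only [θ]
          rw [if_neg (fun h => h2 h.2)]
      · simp only [θ]
        rw [if_neg (fun h => h1 h.1), if_neg h1, zero_mul]
    rw [e1]
    apply DegLe_mul
    · choose J hJc hJ using hbase
      apply Dep_le_DegLe K false (S := univ.biUnion (fun i => (J i).image Prod.fst))
      · calc _ ≤ ∑ i : Fin a, ((J i).image Prod.fst).card := card_biUnion_le
          _ ≤ ∑ i : Fin a, κ := sum_le_sum (fun i _ => card_image_le.trans (hJc i))
          _ = κ * a := by rw [sum_const, card_univ, Fintype.card_fin, smul_eq_mul, mul_comm]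
      · intro y y' hyy
        have : (∀ i, base i (Phi ρ y) = α.1 i) ↔ (∀ i, base i (Phi ρ y') = α.1 i) := by
          apply forall_congr'
          intro i
          rw [hJ i (Phi ρ y) (Phi ρ y')]
          intro j hj
          apply Phi_congr
          apply hyy
          rw [mem_biUnion]
          exact ⟨i, mem_univ _, mem_image_of_mem _ hj⟩
        simp only [this]
    · have := DegLe_prod (K := K) (V := V) (univ : Finset (Fin b))
        (fun i => if α.2 i = true then cj K (wide i) ρ else 1 - cj K (wide i) ρ) (D * R) (by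
          intro i _
          split_ifs
          · exact hρ2 i
          · exact Submodule.sub_mem _ (DegLe_one _) (hρ2 i))
      rwa [card_univ, Fintype.card_fin] at this
  -- the choice of the piece
  obtain ⟨α, hα⟩ : ∃ α, Rd K false pos (sat3 pos sgn) s (θ α) ≠ 0 := by
    by_contra hcon
    push Not at hcon
    have h1 : Rd K false pos (sat3 pos sgn) s (1 : (V → Bool) → K) = 0 := by
      rw [← hsum, map_sum]
      exact sum_eq_zero (fun α _ => hcon α)
    rw [Rd_one (local3 pos sgn) (flex3 pos sgn) hE] at h1
    exact one_ne_zero h1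
  have hidem : θ α * θ α = θ α := by
    funext y
    simp only [Pi.mul_apply, θ]
    split_ifs <;> simp
  have hdet : ∀ u, ¬ Loc κ (val u) → ∀ y y', θ α y ≠ 0 → θ α y' ≠ 0 →
      val u (Phi ρ y) = val u (Phi ρ y') := by
    intro u hu y y' hy hy'
    have h1 : (∀ i, base i (Phi ρ y) = α.1 i) ∧
      (∀ i, decide (∀ g ∈ wide i, g (Phi ρ y) = true) = α.2 i) := by
      by_contra h
      exact hy (if_neg h)
    have h2 : (∀ i, base i (Phi ρ y') = α.1 i) ∧
      (∀ i, decide (∀ g ∈ wide i, g (Phi ρ y') = true) = α.2 i) := by
      by_contra h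
      exact hy' (if_neg h)
    apply (kind u).resolve_left hu
    · intro i
      rw [h1.1 i, h2.1 i]
    · intro i
      have h3 : decide (∀ g ∈ wide i, g (Phi ρ y) = true) =
        decide (∀ g ∈ wide i, g (Phi ρ y') = true) := by rw [h1.2 i, h2.2 i]
      simpa using h3
  -- degrees of monomials
  have hmon : ∀ m ∈ M, ev K val ρ (MvPolynomial.monomial m 1) * θ α ∈
      DegLe K false (D * R + tt) := by
    intro m hm
    by_cases hall : ∀ u ∈ m.support, ¬ Loc κ (val u) → ∀ y, θ α y ≠ 0 → val u (Phi ρ y) = true
    · have e1 : ev K val ρ (MvPolynomial.monomial m 1) * θ α = cj K (Gm m) ρ * θ α := by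
        funext y
        simp only [Pi.mul_apply]
        by_cases h0 : θ α y = 0
        · rw [h0, mul_zero, mul_zero]
        · rw [ev_monomial]
          have : (∀ u ∈ m.support, val u (Phi ρ y) = true) ↔
              (∀ g ∈ Gm m, g (Phi ρ y) = true) := by
            constructor
            · intro h g hg
              obtain ⟨u, hu, rfl⟩ := mem_image.1 hg
              exact h u (mem_filter.1 hu).1
            · intro h u hu
              by_cases hl : Loc κ (val u)
              · exact h (val u) (mem_image_of_mem _ (mem_filter.2 ⟨hu, hl⟩))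
              · exact hall u hu hl y h0
          simp only [cj, this]
      rw [e1]
      exact DegLe_mul (hρ1 m hm) (hθd α)
    · push Not at hall
      obtain ⟨u, hu, hl, y0, hy0, hv⟩ := hall
      have e1 : ev K val ρ (MvPolynomial.monomial m 1) * θ α = 0 := by
        funext y
        simp only [Pi.mul_apply, Pi.zero_apply]
        by_cases h0 : θ α y = 0
        · rw [h0, mul_zero]
        · rw [ev_monomial, if_neg, zero_mul]
          intro h
          apply hv
          rw [hdet u hl y0 y hy0 h0]
          exact h u hu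
      rw [e1]
      exact Submodule.zero_mem _
  have hline : ∀ f : MvPolynomial U K, f.support ⊆ M →
      ev K val ρ f * θ α ∈ DegLe K false (D * R + tt) := by
    intro f hf
    have e1 : f = ∑ m ∈ f.support, f.coeff m • MvPolynomial.monomial m (1 : K) := by
      conv_lhs => rw [f.as_sum]
      apply sum_congr rfl
      intro m _
      rw [MvPolynomial.smul_monomial, smul_eq_mul, mul_one]
    rw [e1, map_sum, sum_mul]
    apply Submodule.sum_mem
    intro m hm
    rw [map_smul, smul_mul_assoc]
    exact Submodule.smul_mem _ _ (hmon m (hf hm))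
  have hvar : ∀ u : U, ev K val ρ (MvPolynomial.X u) * θ α ∈ DegLe K false (κ + tt) := by
    intro u
    have hX : ∀ y, ev K val ρ (MvPolynomial.X u) y =
        if val u (Phi ρ y) = true then (1 : K) else 0 := by
      intro y
      rw [ev_apply, MvPolynomial.eval_X]
    by_cases hl : Loc κ (val u)
    · apply DegLe_mul _ (hθd α)
      obtain ⟨J, hJc, hJ⟩ := hl
      apply Dep_le_DegLe K false (S := J.image Prod.fst) (card_image_le.trans hJc)
      intro y y' hyy
      rw [hX, hX, hJ (Phi ρ y) (Phi ρ y')]
      intro j hj
      apply Phi_congr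
      exact hyy _ (mem_image_of_mem _ hj)
    · by_cases hv : ∀ y, θ α y ≠ 0 → val u (Phi ρ y) = true
      · have e1 : ev K val ρ (MvPolynomial.X u) * θ α = θ α := by
          funext y
          simp only [Pi.mul_apply]
          by_cases h0 : θ α y = 0
          · rw [h0, mul_zero]
          · rw [hX, if_pos (hv y h0), one_mul]
        rw [e1]
        exact DegLe_mono K (by omega) (hθd α)
      · push Not at hv
        obtain ⟨y0, hy0, hv⟩ := hv
        have e1 : ev K val ρ (MvPolynomial.X u) * θ α = 0 := by
          funext y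
          simp only [Pi.mul_apply, Pi.zero_apply]
          by_cases h0 : θ α y = 0
          · rw [h0, mul_zero]
          · rw [hX, if_neg, zero_mul]
            rw [hdet u hl y y0 h0 hy0]
            exact hv
        rw [e1]
        exact Submodule.zero_mem _
  have hbound : D * R + tt = D * ((b + 1) * R) + κ * a := by rw [htt]; ring
  let L : MvPolynomial U K →ₗ[K] ((V → Bool) → K) :=
    (Rd K false pos (sat3 pos sgn) s).comp
      ((LinearMap.mulRight K (θ α)).comp (ev K val ρ).toLinearMap)
  have hL : ∀ f, L f = Rd K false pos (sat3 pos sgn) s (ev K val ρ f * θ α) := fun f => rfl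
  refine ⟨L, ?_, ?_, ?_, ?_⟩
  · rw [hL, map_one, one_mul]
    exact hα
  · intro f T hf hT h
    rw [hL]
    apply Rd_axiom hE T (D * R + tt) (by rw [hbound]; omega) _ (hline f hf)
    intro y hy
    rw [Pi.mul_apply, ev_apply, h (Phi ρ y), zero_mul]
    intro b hb
    have : (fun v => par (fun i => Phi ρ y (v, i))) = y := funext (par_Phi ρ y)
    rw [this]
    exact hy b hb
  · intro f h hf hh h0
    rw [hL] at h0 ⊢
    have e1 : ev K val ρ (h * f) * θ α =
        (ev K val ρ h * θ α) * (ev K val ρ f * θ α) := by
      rw [map_mul]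
      calc _ = ev K val ρ h * ev K val ρ f * (θ α * θ α) := by rw [hidem]
        _ = _ := by ring
    rw [e1]
    exact Rd_mulD hE (by rw [hbound]; omega) (hline h hh) (hline f hf) h0
  · intro f u hf h0
    rw [hL] at h0 ⊢
    have e1 : ev K val ρ (MvPolynomial.X u * f) * θ α =
        (ev K val ρ (MvPolynomial.X u) * θ α) * (ev K val ρ f * θ α) := by
      rw [map_mul]
      calc _ = ev K val ρ (MvPolynomial.X u) * ev K val ρ f * (θ α * θ α) := by rw [hidem]
        _ = _ := by ring
    rw [e1]
    refine Rd_mulD hE (d := D * R + tt) (z := κ + tt) ?_ (hvar u) (hline f hf) h0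
    have : tt ≤ D * R + tt := Nat.le_add_left _ _
    rw [hbound] at this ⊢
    omega

end Pool.Agent.J6H27.EP
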