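import Mathlib
import Pool.Agent.J6H27.EP.Op

/-!
Polynomial calculus with local and few nonlocal extension variables: definitions and the lower
bound.
-/

set_option autoImplicit false
set_option linter.unusedSectionVars false

namespace Pool.Agent.J6H27.EP

open Finset Filter Pool.Agent.W939.PC

/-- The assignment `x` satisfies the clause `C`, which is a set of literals; the literal `(i, c)`
says that `x i = c`. -/
def SatC {I : Type} (x : I → Bool) (C : Finset (I × Bool)) : Prop := ∃ l ∈ C, x l.1 = l.2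

/-- The Boolean functions `val e` for which the extension variables `e : E` stand. Each of them is
`κ`-local, that is, it depends on at most `κ` of the variables in `I`, or it is determined by the
values of the `a` functions `base i`, which are `κ`-local, and the truth values of the `b`
conjunctions of all functions in `wide i`, which are `κ`-local as well. -/
structure Ext (I : Type) (κ a b : ℕ) (E : Type) where
  val : E → (I → Bool) → Bool
  base : Fin a → (I → Bool) → Bool
  base_loc : ∀ i, Loc κ (base i)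
  wide : Fin b → Set ((I → Bool) → Bool)
  wide_loc : ∀ i, ∀ g ∈ wide i, Loc κ g
  kind : ∀ e, Loc κ (val e) ∨ ∀ x x', (∀ i, base i x = base i x') →
    (∀ i, (∀ g ∈ wide i, g x = true) ↔ (∀ g ∈ wide i, g x' = true)) → val e x = val e x'

/-- The values in `K` of the variables and the extension variables for the assignment `x`. -/
def Ext.at {I : Type} {κ a b : ℕ} {E : Type} (X : Ext I κ a b E) (K : Type) [Field K]
    (x : I → Bool) : I ⊕ E → K :=
  Sum.elim (fun i => if x i = true then 1 else 0) (fun e => if X.val e x = true then 1 else 0)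

/-- The polynomial calculus over `K` with the extension variables `X` for the clauses `F`. All
monomials of all lines belong to `M`. The axioms are all polynomials which vanish on all
assignments that satisfy some set of at most `c` clauses. The rules are linear combinations, the
multiplication by a variable and the multiplication by a polynomial with monomials from `M`. -/
inductive Der {I : Type} {κ a b : ℕ} {E : Type} (K : Type) [Field K]
    (F : Finset (Finset (I × Bool))) (c : ℕ) (X : Ext I κ a b E) (M : Finset ((I ⊕ E) →₀ ℕ)) :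
    MvPolynomial (I ⊕ E) K → Prop
  | ax (f : MvPolynomial (I ⊕ E) K) (T : Finset (Finset (I × Bool))) (hT : T ⊆ F)
      (hc : T.card ≤ c) (h : ∀ x : I → Bool, (∀ C ∈ T, SatC x C) →
        MvPolynomial.eval (X.at K x) f = 0) (hf : f.support ⊆ M) : Der K F c X M f
  | comb (r s : K) (f g : MvPolynomial (I ⊕ E) K) (hf : Der K F c X M f)
      (hg : Der K F c X M g) : Der K F c X M (r • f + s • g)
  | var (u : I ⊕ E) (f : MvPolynomial (I ⊕ E) K) (hf : Der K F c X M f)
      (h : (MvPolynomial.X u * f).support ⊆ M) : Der K F c X M (MvPolynomial.X u * f)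
  | mul (g f : MvPolynomial (I ⊕ E) K) (hf : Der K F c X M f) (hg : g.support ⊆ M)
      (h : (g * f).support ⊆ M) : Der K F c X M (g * f)

theorem Loc_comp {I I' : Type} {κ : ℕ} {emb : I' → I}
    (hemb : Function.Injective emb) {g : (I → Bool) → Bool} (hg : Loc κ g) :
    Loc κ (fun x : I' → Bool => g (Function.extend emb x (fun _ => false))) := by
  classical
  obtain ⟨J, hJc, hJ⟩ := hg
  refine ⟨J.preimage emb hemb.injOn, ?_, ?_⟩
  · refine le_trans ?_ hJc
    apply card_le_card_of_injOn emb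
    · intro i hi
      exact mem_preimage.1 hi
    · exact hemb.injOn
  · intro x x' h
    apply hJ
    intro j hj
    by_cases hj' : ∃ i, emb i = j
    · obtain ⟨i, rfl⟩ := hj'
      rw [hemb.extend_apply, hemb.extend_apply]
      exact h i (mem_preimage.2 hj)
    · rw [Function.extend_apply' _ _ _ hj', Function.extend_apply' _ _ _ hj']

theorem Loc_var {I : Type} (j : I) : Loc 1 (fun x : I → Bool => x j) :=
  ⟨{j}, by simp, fun x x' h => h j (mem_singleton_self j)⟩

section formula

variable {N m ℓ n : ℕ}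

/-- The clause which excludes the pattern `β` on the blocks of the clause `b`. -/
def clause (pos : Fin m → Fin 3 → Fin N) (emb : Fin N × Fin ℓ → Fin n) (b : Fin m)
    (β : Fin 3 → Fin ℓ → Bool) : Finset (Fin n × Bool) :=
  (univ : Finset (Fin 3 × Fin ℓ)).image (fun z => (emb (pos b z.1, z.2), !(β z.1 z.2)))

/-- The lifted formula. -/
def lifted (pos : Fin m → Fin 3 → Fin N) (sgn : Fin m → Fin 3 → Bool)
    (emb : Fin N × Fin ℓ → Fin n) : Finset (Finset (Fin n × Bool)) :=
  ((univ : Finset (Fin m × (Fin 3 → Fin ℓ → Bool))).filter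
    (fun z => ∀ p, par (z.2 p) ≠ sgn z.1 p)).image (fun z => clause pos emb z.1 z.2)

variable {pos : Fin m → Fin 3 → Fin N} {sgn : Fin m → Fin 3 → Bool}
  {emb : Fin N × Fin ℓ → Fin n}

theorem satC_clause {b : Fin m} {β : Fin 3 → Fin ℓ → Bool} {x : Fin n → Bool} :
    SatC x (clause pos emb b β) ↔ ∃ p i, x (emb (pos b p, i)) ≠ β p i := by
  constructor
  · rintro ⟨l, hl, h⟩
    obtain ⟨⟨p, i⟩, -, rfl⟩ := mem_image.1 hl
    refine ⟨p, i, ?_⟩
    simp only at h
    rw [h]
    cases β p i <;> simp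
  · rintro ⟨p, i, h⟩
    refine ⟨_, mem_image.2 ⟨(p, i), mem_univ _, rfl⟩, ?_⟩
    simp only
    cases h1 : x (emb (pos b p, i)) <;> cases h2 : β p i <;> simp_all

theorem clause_card (b : Fin m) (β : Fin 3 → Fin ℓ → Bool) :
    (clause pos emb b β).card ≤ 3 * ℓ := by
  refine card_image_le.trans ?_
  simp

theorem lifted_width : ∀ C ∈ lifted pos sgn emb, C.card ≤ 3 * ℓ := by
  intro C hC
  obtain ⟨z, -, rfl⟩ := mem_image.1 hC
  exact clause_card z.1 z.2

theorem lifted_card : (lifted pos sgn emb).card ≤ m * 2 ^ (3 * ℓ) := by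
  refine card_image_le.trans ((card_filter_le _ _).trans ?_)
  rw [card_univ, Fintype.card_prod, Fintype.card_fin, Fintype.card_fun, Fintype.card_fun,
    Fintype.card_bool, Fintype.card_fin, Fintype.card_fin, ← pow_mul, mul_comm ℓ 3]

theorem lifted_unsat (h : ∀ y, ∃ b, ¬ sat3 pos sgn b y) (x : Fin n → Bool) :
    ∃ C ∈ lifted pos sgn emb, ¬ SatC x C := by
  obtain ⟨b, hb⟩ := h (fun v => par (fun i => x (emb (v, i))))
  refine ⟨clause pos emb b (fun p i => x (emb (pos b p, i))), ?_, ?_⟩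
  · refine mem_image.2 ⟨(b, fun p i => x (emb (pos b p, i))), ?_, rfl⟩
    rw [mem_filter]
    refine ⟨mem_univ _, fun p hp => hb ⟨p, hp⟩⟩
  · rw [satC_clause]
    rintro ⟨p, i, h⟩
    exact h rfl

/-- A few clauses of the lifted formula hold if a few base clauses hold for the parities. -/
theorem exists_base (hemb : Function.Injective emb) (T : Finset (Finset (Fin n × Bool)))
    (hT : T ⊆ lifted pos sgn emb) : ∃ T' : Finset (Fin m), T'.card ≤ T.card ∧
      ∀ x : Fin N × Fin ℓ → Bool, (∀ b ∈ T', sat3 pos sgn b (fun v => par (fun i => x (v, i)))) →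
        ∀ C ∈ T, SatC (Function.extend emb x (fun _ => false)) C := by
  classical
  have h1 : ∀ C ∈ T, ∃ z : Fin m × (Fin 3 → Fin ℓ → Bool), (∀ p, par (z.2 p) ≠ sgn z.1 p) ∧
      clause pos emb z.1 z.2 = C := by
    intro C hC
    obtain ⟨z, hz, rfl⟩ := mem_image.1 (hT hC)
    exact ⟨z, (mem_filter.1 hz).2, rfl⟩
  choose z hz1 hz2 using h1
  refine ⟨T.attach.image (fun C => (z C.1 C.2).1), ?_, ?_⟩
  · refine card_image_le.trans ?_
    rw [card_attach]
  · intro x hx C hC
    obtain ⟨p, hp⟩ := hx (z C hC).1 (mem_image.2 ⟨⟨C, hC⟩, mem_attach _ _, rfl⟩)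
    rw [← hz2 C hC, satC_clause]
    by_contra hcon
    push Not at hcon
    apply hz1 C hC p
    rw [← hp]
    congr 1
    funext i
    rw [← hcon p i, hemb.extend_apply]

end formula

theorem core {N m ℓ n s : ℕ} {pos : Fin m → Fin 3 → Fin N} {sgn : Fin m → Fin 3 → Bool}
    {emb : Fin N × Fin ℓ → Fin n} (hemb : Function.Injective emb) (hE : Expd pos s)
    {K : Type} [Field K] {E : Type} {q κ a b c R : ℕ} (hq1 : 1 ≤ q)
    (hq : Fintype.card (Om ℓ) ^ (κ + 1) ≤ q) (hκ : κ + 1 < ℓ) (X : Ext (Fin n) κ a b E)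
    (M : Finset ((Fin n ⊕ E) →₀ ℕ)) (hM : M.card + b < 2 ^ R)
    (hs : 8 * (Dk ℓ q (κ + 1) * ((b + 1) * R) + (κ + 1) * a) + 12 * c + 4 * (κ + 1) ≤ s) :
    ¬ Der K (lifted pos sgn emb) c X M 1 := by
  classical
  intro hder
  let xt : (Fin N × Fin ℓ → Bool) → Fin n → Bool :=
    fun x => Function.extend emb x (fun _ => false)
  let val : Fin n ⊕ E → (Fin N × Fin ℓ → Bool) → Bool := fun u x =>
    Sum.elim (fun j => xt x j) (fun e => X.val e (xt x)) u
  have hat : ∀ x, (fun u => if val u x = true then (1 : K) else 0) = X.at K (xt x) := by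
    intro x
    funext u
    cases u <;> rfl
  obtain ⟨L, hL1, hLax, hLmul, hLvar⟩ := operator (K := K) (c := c) (sgn := sgn) hE hq1 hq hκ val
    (fun i x => X.base i (xt x)) (fun i => (Loc_comp hemb (X.base_loc i)).mono (Nat.le_succ κ))
    (fun i => ((fun g : (Fin n → Bool) → Bool => fun x => g (xt x)) '' X.wide i).toFinite.toFinset)
    (by
      intro i g hg
      rw [Set.Finite.mem_toFinset] at hg
      obtain ⟨g', hg', rfl⟩ := hg
      exact (Loc_comp hemb (X.wide_loc i g' hg')).mono (Nat.le_succ κ))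
    (by
      intro u
      cases u with
      | inl j =>
        left
        exact (Loc_comp hemb (Loc_var j)).mono (Nat.succ_le_succ (Nat.zero_le κ))
      | inr e =>
        rcases X.kind e with h | h
        · left
          exact (Loc_comp hemb h).mono (Nat.le_succ κ)
        · right
          intro x x' h1 h2
          apply h (xt x) (xt x') h1
          intro i
          have h3 := h2 i
          simp only [Set.Finite.mem_toFinset, Set.mem_image, forall_exists_index, and_imp,
            forall_apply_eq_imp_iff₂] at h3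
          exact h3)
    M hM hs
  have key : ∀ f, Der K (lifted pos sgn emb) c X M f → f.support ⊆ M ∧ L f = 0 := by
    intro f hf
    induction hf with
    | ax f T hT hc h hf =>
      refine ⟨hf, ?_⟩
      obtain ⟨T', hT', hTT⟩ := exists_base hemb T hT
      apply hLax f T' hf (hT'.trans hc)
      intro x hx
      rw [hat]
      exact h (xt x) (hTT x hx)
    | comb r s f g _ _ ihf ihg =>
      refine ⟨?_, ?_⟩
      · refine (MvPolynomial.support_add).trans (union_subset ?_ ?_)
        · exact (MvPolynomial.support_smul).trans ihf.1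
        · exact (MvPolynomial.support_smul).trans ihg.1
      · rw [map_add, map_smul, map_smul, ihf.2, ihg.2, smul_zero, smul_zero, add_zero]
    | var u f _ h ih => exact ⟨h, hLvar f u ih.1 ih.2⟩
    | mul g f _ hg h ih => exact ⟨h, hLmul f g ih.1 hg ih.2⟩
  exact hL1 (key 1 hder).2

theorem pow_lt (N : ℕ) (hN : 1 ≤ N) : 2 ^ N * 7 ^ (6 * N) < 8 ^ (6 * N) := by
  rw [pow_mul, pow_mul, ← mul_pow]
  exact Nat.pow_lt_pow_left (by norm_num) (by omega)

theorem lower (κ : ℕ) : ∃ (w : ℕ) (δ : ℝ), 0 < δ ∧ ∀ᶠ n : ℕ in atTop,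
    ∃ F : Finset (Finset (Fin n × Bool)), (∀ C ∈ F, C.card ≤ w) ∧ F.card ≤ w * n ∧
      (∀ x, ∃ C ∈ F, ¬ SatC x C) ∧
      ∀ (K : Type) [Field K] (E : Type) (a b c R : ℕ) (X : Ext (Fin n) κ a b E)
        (M : Finset ((Fin n ⊕ E) →₀ ℕ)), (a : ℝ) ≤ δ * n → (c : ℝ) ≤ δ * n →
        ((b : ℝ) + 1) * R ≤ δ * n → M.card + b < 2 ^ R → ¬ Der K F c X M 1 := by
  classical
  set ℓ : ℕ := κ + 2 with hℓ
  set q : ℕ := Fintype.card (Om ℓ) ^ (κ + 1) with hq
  have hne : Nonempty (Om ℓ) := ⟨(⟨0, by omega⟩, fun _ => false)⟩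
  have hq1 : 1 ≤ q := Nat.one_le_pow _ _ Fintype.card_pos
  set D : ℕ := Dk ℓ q (κ + 1) with hD
  set Z : ℝ := 4 * (((6 : ℕ) : ℝ) * (Fintype.card (Fin 3) : ℕ) * ((Fintype.card (Fin 3) : ℕ) + 1) *
      Real.exp 1 ^ (Fintype.card (Fin 3) + 1)) with hZ
  have hZ1 : 1 ≤ Z := by
    have h1 : (1 : ℝ) ≤ Real.exp 1 ^ (Fintype.card (Fin 3) + 1) := by
      apply one_le_pow₀
      have := Real.add_one_le_exp (1 : ℝ)
      linarith
    rw [hZ]
    rw [Fintype.card_fin] at h1 ⊢
    have e : (4 : ℝ) * (((6 : ℕ) : ℝ) * ((3 : ℕ) : ℝ) * (((3 : ℕ) : ℝ) + 1) *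
        Real.exp 1 ^ (3 + 1)) = 288 * Real.exp 1 ^ (3 + 1) := by
      push_cast
      ring
    rw [e]
    linarith
  set γ : ℝ := 1 / Z with hγ
  have hZ0 : 0 < Z := by linarith
  have hγ0 : 0 < γ := by positivity
  have hγ1 : γ ≤ 1 := by
    rw [hγ, div_le_one hZ0]
    exact hZ1
  have hγZ : γ * Z ≤ 1 := by
    rw [hγ, one_div, inv_mul_cancel₀ hZ0.ne']
  set W : ℝ := 8 * D + 8 * (κ + 1) + 12 with hW
  have hW0 : 0 < W := by positivity
  have hℓ0 : (0 : ℝ) < ℓ := by
    have : 0 < ℓ := by omega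
    exact_mod_cast this
  refine ⟨3 * ℓ + 6 * 2 ^ (3 * ℓ), γ ^ 4 / (12 * ℓ * W), by positivity, ?_⟩
  have hev1 : ∀ᶠ n : ℕ in atTop, 2 * ℓ ≤ n := eventually_ge_atTop _
  have hev2 : ∀ᶠ n : ℕ in atTop, 12 * (ℓ : ℝ) * (4 * (κ + 1) + 1) / γ ^ 4 ≤ (n : ℝ) :=
    (tendsto_natCast_atTop_atTop).eventually_ge_atTop _
  filter_upwards [hev1, hev2] with n hn1 hn2
  set N : ℕ := n / ℓ with hN
  have hN1 : N * ℓ ≤ n := Nat.div_mul_le_self n ℓ
  have hN2 : n ≤ 2 * (N * ℓ) := by
    have h1 := Nat.div_add_mod n ℓ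
    have h2 := Nat.mod_lt n (show 0 < ℓ by omega)
    have h3 : ℓ * (n / ℓ) = N * ℓ := by rw [hN, mul_comm]
    rw [h3] at h1
    omega
  have hN0 : 1 ≤ N := by
    rw [hN]
    exact (Nat.one_le_div_iff (by omega)).2 (by omega)
  obtain ⟨pos, hE⟩ := exists_expanding (P := Fin 3) (N := N) (m := 6 * N)
    (s := ⌊γ ^ 4 * N / 3⌋₊) (μ := 6) (γ := γ) (by omega) le_rfl hγ0 hγ1 hγZ (by
      have h1 : ((⌊γ ^ 4 * N / 3⌋₊ : ℕ) : ℝ) ≤ γ ^ 4 * N / 3 := Nat.floor_le (by positivity)
      rw [Fintype.card_fin]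
      push_cast
      linarith)
  obtain ⟨sgn, hsgn⟩ := exists_unsat pos (by
    rw [Fintype.card_fin, Fintype.card_fin]
    exact pow_lt N hN0)
  let emb : Fin N × Fin ℓ → Fin n := fun z => Fin.castLE hN1 (finProdFinEquiv z)
  have hemb : Function.Injective emb := by
    intro z z' h
    exact finProdFinEquiv.injective (Fin.castLE_injective hN1 h)
  refine ⟨lifted pos sgn emb, ?_, ?_, ?_, ?_⟩
  · intro C hC
    exact (lifted_width C hC).trans (Nat.le_add_right _ _)
  · calc _ ≤ 6 * N * 2 ^ (3 * ℓ) := lifted_card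
      _ ≤ 6 * n * 2 ^ (3 * ℓ) := by
          apply Nat.mul_le_mul_right
          apply Nat.mul_le_mul_left
          exact Nat.div_le_self n ℓ
      _ = (6 * 2 ^ (3 * ℓ)) * n := by ring
      _ ≤ _ := Nat.mul_le_mul_right _ (Nat.le_add_left _ _)
  · exact lifted_unsat hsgn
  · intro K _ E a b c R X M ha hc hR hM
    refine core hemb hE hq1 le_rfl (by omega) X M hM ?_
    apply Nat.le_floor
    push_cast
    have hNn : (n : ℝ) ≤ 2 * (N * ℓ) := by exact_mod_cast hN2
    have h1 : γ ^ 4 / (12 * ℓ * W) * n * W = γ ^ 4 * n / (12 * ℓ) := by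
      field_simp
    have h2 : γ ^ 4 * n / (12 * ℓ) ≤ γ ^ 4 * N / 6 := by
      rw [div_le_div_iff₀ (by positivity) (by norm_num)]
      have : γ ^ 4 * n ≤ γ ^ 4 * (2 * (N * ℓ)) := mul_le_mul_of_nonneg_left hNn (by positivity)
      nlinarith
    have h3 : 4 * ((κ : ℝ) + 1) + 1 ≤ γ ^ 4 * n / (12 * ℓ) := by
      rw [div_le_iff₀ (by positivity)] at hn2
      rw [le_div_iff₀ (by positivity)]
      linarith
    set x : ℝ := γ ^ 4 / (12 * ℓ * W) * n with hx
    have hD0 : (0 : ℝ) ≤ D := Nat.cast_nonneg _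
    have hκ0 : (0 : ℝ) ≤ (κ : ℝ) + 1 := by positivity
    have h4 : (D : ℝ) * (((b : ℝ) + 1) * R) ≤ D * x := mul_le_mul_of_nonneg_left hR hD0
    have h5 : ((κ : ℝ) + 1) * a ≤ (κ + 1) * x := mul_le_mul_of_nonneg_left ha hκ0
    have h6 : x * W = 8 * (D * x + (κ + 1) * x) + 12 * x := by rw [hW]; ring
    have h7 : x * W ≤ γ ^ 4 * N / 6 := by rw [h1]; exact h2
    have h8 : 4 * ((κ : ℝ) + 1) + 1 ≤ γ ^ 4 * N / 6 := h3.trans h2
    linarith

end Pool.Agent.J6H27.EP
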