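import Mathlib
import Pool.Agent.J6H27.EP.Switch
import Pool.Agent.TH658.Sos.Psd

/-!
Parity conditions with three positions on expanding families: right hand sides which make them
unsatisfiable, and the pseudo-expectation.
-/

set_option autoImplicit false
set_option linter.unusedSectionVars false

namespace Pool.Agent.J6H27.EP

open Finset Pool.Agent.W939.PC Pool.Agent.TH658.Sos

variable {V B : Type} [Fintype V] [DecidableEq V] [Fintype B] [DecidableEq B]

/-- The parity condition `b` holds for `y`. -/
def satX (pos : B → Fin 3 → V) (rhs : B → ZMod 2) (b : B) (y : V → Bool) : Prop :=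
  ∑ p, bz (y (pos b p)) = rhs b

/-- Right hand sides which make the conditions unsatisfiable. -/
theorem exists_unsatX (pos : B → Fin 3 → V) (h : Fintype.card V < Fintype.card B) :
    ∃ rhs : B → ZMod 2, ∀ y, ∃ b, ¬ satX pos rhs b y := by
  by_contra hcon
  push Not at hcon
  choose y hy using hcon
  have hinj : Function.Injective y := by
    intro r r' he
    funext b
    have h1 := hy r b
    have h2 := hy r' b
    unfold satX at h1 h2
    rw [← h1, ← h2, he]
  have h1 := Fintype.card_le_of_injective y hinj
  rw [Fintype.card_fun, Fintype.card_fun, ZMod.card, Fintype.card_bool] at h1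
  have h2 := (Nat.pow_le_pow_iff_right (by norm_num)).1 h1
  omega

/-- Vectors as assignments. -/
def tb (x : V → ZMod 2) : V → Bool := fun v => decide (x v = 1)

theorem bz_tb (x : V → ZMod 2) (v : V) : bz (tb x v) = x v := by
  have h : ∀ z : ZMod 2, bz (decide (z = 1)) = z := by decide
  exact h _

variable {pos : B → Fin 3 → V} {rhs : B → ZMod 2} {s : ℕ}

theorem cl_mono {h : ℕ} {S S' : Finset V} (hS : S ⊆ S') : cl pos h s S ⊆ cl pos h s S' := by
  classical
  intro b hb
  unfold cl at hb
  rw [mem_biUnion] at hb
  obtain ⟨T, hT, hbT⟩ := hb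
  rw [mem_filter] at hT
  refine subset_cl pos hT.2.1 (fun b' hb' => ?_) hbT
  exact lt_of_le_of_lt (card_le_card (fr_anti pos hS (subset_refl T) b')) (hT.2.2 b' hb')

/-- Solutions near a small set of vertices extend. -/
theorem ext_sol (hE : Expd pos s) {W : Finset V} (hW : 4 * W.card ≤ s) (x0 : V → ZMod 2)
    (h0 : ∀ b ∈ cl pos (Fintype.card (Fin 3) - 2) s W, ∑ p, x0 (pos b p) = rhs b) (n : ℕ) :
    ∀ T : Finset B, T.card = n → T.card ≤ s → cl pos (Fintype.card (Fin 3) - 2) s W ⊆ T →
      ∃ x : V → ZMod 2, (∀ v ∈ W, x v = x0 v) ∧ ∀ b ∈ T, ∑ p, x (pos b p) = rhs b := by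
  induction n with
  | zero =>
    intro T hT _ _
    rw [card_eq_zero] at hT
    exact ⟨x0, fun _ _ => rfl, by simp [hT]⟩
  | succ n ih =>
    intro T hn hT hsub
    by_cases hne : T = cl pos (Fintype.card (Fin 3) - 2) s W
    · exact ⟨x0, fun _ _ => rfl, by rw [hne]; exact h0⟩
    · obtain ⟨b, hbT, hbc, hfr⟩ := peel pos hE hW hT hsub hne
      have h1 : 0 < (fr pos W T b).card := by
        rw [Fintype.card_fin] at hfr
        omega
      obtain ⟨p, hp⟩ := card_pos.1 h1
      obtain ⟨hpW, hpu⟩ := (mem_fr pos).1 hp
      have hT' : (T.erase b).card = n := by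
        rw [card_erase_of_mem hbT, hn]
        rfl
      obtain ⟨x, hx1, hx2⟩ := ih (T.erase b) hT' (by omega) (by
        intro y hy
        rw [mem_erase]
        exact ⟨fun h => hbc (h ▸ hy), hsub hy⟩)
      refine ⟨Function.update x (pos b p) (x (pos b p) + (rhs b + ∑ p', x (pos b p'))), ?_, ?_⟩
      · intro v hv
        rw [Function.update_of_ne (by rintro rfl; exact hpW hv)]
        exact hx1 v hv
      · intro b' hb'
        by_cases hbb : b' = b
        · subst hbb
          have h2 : ∀ p', Function.update x (pos b' p) (x (pos b' p) +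
              (rhs b' + ∑ p', x (pos b' p'))) (pos b' p') = x (pos b' p') +
              (if p' = p then (rhs b' + ∑ p', x (pos b' p')) else 0) := by
            intro p'
            by_cases h3 : p' = p
            · rw [h3, Function.update_self, if_pos rfl]
            · rw [if_neg h3, add_zero, Function.update_of_ne]
              intro h4
              exact h3 (hpu b' hb' p' h4).2
          rw [sum_congr rfl (fun p' _ => h2 p'), sum_add_distrib, sum_ite_eq' univ,
            if_pos (mem_univ _)]
          rw [add_comm (rhs b'), ← add_assoc, CharTwo.add_self_eq_zero, zero_add]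
        · rw [← hx2 b' (mem_erase.2 ⟨hbb, hb'⟩)]
          apply sum_congr rfl
          intro p' _
          rw [Function.update_of_ne]
          intro h4
          exact hbb (hpu b' hb' p' h4).1

/-- The locally consistent system of the parity conditions. -/
noncomputable def xsys (rhs : B → ZMod 2) (hE : Expd pos s) : Sys (V → ZMod 2) (Finset V) where
  N W :=
    { carrier := {x | ∀ v ∈ W, x v = 0}
      zero_mem' := fun _ _ => rfl
      add_mem' := by
        intro a b ha hb v hv
        rw [Pi.add_apply, ha v hv, hb v hv, add_zero]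
      neg_mem' := by
        intro a ha v hv
        rw [Pi.neg_apply, ha v hv, neg_zero] }
  D W :=
    { carrier := {x | ∀ b ∈ cl pos (Fintype.card (Fin 3) - 2) s W, ∑ p, x (pos b p) = 0}
      zero_mem' := fun _ _ => by simp
      add_mem' := by
        intro a b ha hb c hc
        simp only [Pi.add_apply]
        rw [sum_add_distrib, ha c hc, hb c hc, add_zero]
      neg_mem' := by
        intro a ha c hc
        simp only [Pi.neg_apply]
        rw [sum_neg_distrib, ha c hc, neg_zero] }
  Sol W := {x | ∀ b ∈ cl pos (Fintype.card (Fin 3) - 2) s W, ∑ p, x (pos b p) = rhs b}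
  size W := W.card
  K := s / 4
  N_anti := fun W W' h x hx v hv => hx v (h hv)
  D_anti := fun W W' h x hx b hb => hx b (cl_mono h hb)
  Sol_anti := fun W W' h x hx b hb => hx b (cl_mono h hb)
  sol_iff := by
    intro W M M' hM
    constructor
    · intro hM' b hb
      simp only [Pi.sub_apply]
      rw [sum_sub_distrib, hM' b hb, hM b hb, sub_self]
    · intro h b hb
      have h1 := h b hb
      simp only [Pi.sub_apply] at h1
      rw [sum_sub_distrib, hM b hb] at h1
      exact sub_eq_zero.1 h1
  size_bot := rfl
  size_sup := fun W W' => card_union_le W W'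
  nonempty := by
    intro W hW
    have h1 : 4 * W.card ≤ s := by omega
    have h2 := (cl_spec pos hE h1).2
    obtain ⟨x, -, hx⟩ := ext_sol (rhs := rhs) hE (W := ∅) (by simp) (fun _ => 0)
      (by rw [cl_empty pos hE]; simp) _ (cl pos (Fintype.card (Fin 3) - 2) s W) rfl (by omega)
      (by rw [cl_empty pos hE]; simp)
    exact ⟨x, hx⟩
  extend := by
    intro W W' h hW' M hM
    have h0 := card_le_card (show W ⊆ W' from h)
    have h1 : 4 * W'.card ≤ s := by omega
    have h2 := (cl_spec pos hE h1).2
    obtain ⟨x, hx1, hx2⟩ := ext_sol (rhs := rhs) hE (W := W) (by omega) M hM _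
      (cl pos (Fintype.card (Fin 3) - 2) s W') rfl (by omega) (cl_mono h)
    refine ⟨x, hx2, ?_⟩
    intro v hv
    rw [Pi.sub_apply, hx1 v hv, sub_self]

theorem cardX : ((Fintype.card (V → ZMod 2) : ℕ) : ℝ) ≠ 0 :=
  Nat.cast_ne_zero.2 Fintype.card_ne_zero

/-- The pseudo-expectation. -/
noncomputable def Ex (rhs : B → ZMod 2) (hE : Expd pos s) : ((V → Bool) → ℝ) →ₗ[ℝ] ℝ :=
  (bas ℝ false).constr ℝ (fun m => (xsys rhs hE).avg (sup false m)
    (fun x => chi ℝ false m (tb x)))

theorem Ex_chi (hE : Expd pos s) (m : V → Bool) : Ex rhs hE (chi ℝ false m) =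
    (xsys rhs hE).avg (sup false m) (fun x => chi ℝ false m (tb x)) := by
  rw [Ex, ← bas_apply ℝ false m, Module.Basis.constr_basis, bas_apply]

theorem Ex_dep (hE : Expd pos s) {W : Finset V} (hW : W.card ≤ s / 4) {f : (V → Bool) → ℝ}
    (hf : f ∈ Dep ℝ W) : Ex rhs hE f = (xsys rhs hE).avg W (fun x => f (tb x)) := by
  have h1 := Dep_le_Mon ℝ false W hf
  refine Submodule.span_induction (p := fun f _ =>
    Ex rhs hE f = (xsys rhs hE).avg W (fun x => f (tb x))) ?_ ?_ ?_ ?_ h1
  · rintro g ⟨m, hm, rfl⟩
    rw [Ex_chi]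
    apply (xsys rhs hE).avg_level cardX (W := sup false m) (W' := W) hm hW
    intro x n hn
    apply chi_mem_Dep ℝ false m
    intro v hv
    have : n v = 0 := hn v hv
    simp only [tb, Pi.add_apply, this, add_zero]
  · rw [map_zero]
    exact ((xsys rhs hE).avg_zero W).symm
  · intro x y _ _ hx hy
    rw [map_add, hx, hy, ← Sys.avg_add]
    rfl
  · intro c x _ hx
    rw [map_smul, hx, smul_eq_mul, ← Sys.avg_smul]
    rfl

theorem Ex_one (hE : Expd pos s) : Ex rhs hE 1 = 1 := by
  have h1 : (1 : (V → Bool) → ℝ) ∈ Dep ℝ (∅ : Finset V) := fun _ _ _ => rfl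
  rw [Ex_dep hE (W := ∅) (by simp) h1]
  exact (xsys rhs hE).avg_one cardX _

theorem Ex_sq (hE : Expd pos s) {d : ℕ} (hd : 3 * d ≤ s / 4) {f : (V → Bool) → ℝ}
    (hf : f ∈ DegLe ℝ false d) : 0 ≤ Ex rhs hE (f * f) := by
  classical
  let I : Type := {m : V → Bool // (sup false m).card ≤ d}
  have h1 : f ∈ Submodule.span ℝ (Set.range (fun i : I => chi ℝ false i.1)) := by
    refine Submodule.span_mono ?_ hf
    rintro g ⟨m, hm, rfl⟩
    exact ⟨⟨m, hm⟩, rfl⟩
  rw [Submodule.mem_span_range_iff_exists_fun] at h1
  obtain ⟨c, rfl⟩ := h1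
  have key := (xsys rhs hE).psd (fun i : I => sup false i.1) d (fun i => i.2) hd
    (fun i x => c i * chi ℝ false i.1 (tb x)) (by
      intro i x n hn
      congr 1
      apply chi_mem_Dep ℝ false i.1
      intro v hv
      have : n v = 0 := hn v hv
      simp only [tb, Pi.add_apply, this, add_zero])
  refine le_trans key (le_of_eq ?_)
  rw [sum_mul_sum, map_sum]
  apply sum_congr rfl
  intro i _
  rw [map_sum]
  apply sum_congr rfl
  intro j _
  have h2 : (c i • chi ℝ false i.1) * (c j • chi ℝ false j.1) ∈
      Dep ℝ (sup false i.1 ∪ sup false j.1) := by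
    apply Dep_mul
    · exact Submodule.smul_mem _ _ (Dep_mono ℝ subset_union_left (chi_mem_Dep ℝ false i.1))
    · exact Submodule.smul_mem _ _ (Dep_mono ℝ subset_union_right (chi_mem_Dep ℝ false j.1))
  have h3 : (sup false i.1 ∪ sup false j.1).card ≤ s / 4 := by
    have := card_union_le (sup false i.1) (sup false j.1)
    have hi := i.2
    have hj := j.2
    omega
  rw [Ex_dep hE h3 h2]
  rfl

/-- Indicator of the violation of the condition `b`. -/
noncomputable def violX (pos : B → Fin 3 → V) (rhs : B → ZMod 2) (b : B) : (V → Bool) → ℝ := by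
  classical exact fun y => if satX pos rhs b y then 0 else 1

theorem violX_dep (b : B) : violX pos rhs b ∈ Dep ℝ (univ.image (pos b)) := by
  classical
  intro y y' h
  have h1 : satX pos rhs b y ↔ satX pos rhs b y' := by
    unfold satX
    rw [sum_congr rfl (fun p _ => by rw [h _ (mem_image_of_mem _ (mem_univ p))])]
  simp only [violX, h1]

theorem Ex_viol (hE : Expd pos s) {d : ℕ} (hd : 4 * (d + 3) ≤ s) (b : B) {g : (V → Bool) → ℝ}
    (hg : g ∈ DegLe ℝ false d) : Ex rhs hE (violX pos rhs b * g) = 0 := by
  classical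
  refine Submodule.span_induction (p := fun g _ =>
    Ex rhs hE (violX pos rhs b * g) = 0) ?_ ?_ ?_ ?_ hg
  · rintro g ⟨m, hm, rfl⟩
    have hp3 : (univ.image (pos b)).card ≤ 3 := by
      refine card_image_le.trans ?_
      rw [card_univ, Fintype.card_fin]
    have hc : (univ.image (pos b) ∪ sup false m).card ≤ 3 + d :=
      (card_union_le _ _).trans (Nat.add_le_add hp3 hm)
    have hW : (univ.image (pos b) ∪ sup false m).card ≤ s / 4 := by omega
    rw [Ex_dep hE hW (Dep_mul ℝ (Dep_mono ℝ subset_union_left (violX_dep b))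
      (Dep_mono ℝ subset_union_right (chi_mem_Dep ℝ false m)))]
    have hb : b ∈ cl pos (Fintype.card (Fin 3) - 2) s (univ.image (pos b) ∪ sup false m) := by
      apply subset_cl pos (T := {b}) (by simp; omega) _ (mem_singleton_self b)
      intro b' hb'
      rw [mem_singleton] at hb'
      subst hb'
      have : fr pos (univ.image (pos b') ∪ sup false m) {b'} b' = ∅ := by
        rw [eq_empty_iff_forall_notMem]
        intro p hp
        exact ((mem_fr pos).1 hp).1 (mem_union_left _ (mem_image_of_mem _ (mem_univ p)))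
      rw [this, card_empty, Fintype.card_fin]
      norm_num
    have hne := (xsys rhs hE).nonempty (univ.image (pos b) ∪ sup false m) hW
    rw [(xsys rhs hE).avg_congr hne (G := fun _ => 0)]
    · exact (xsys rhs hE).avg_zero _
    · intro x hx
      have h1 : satX pos rhs b (tb x) := by
        unfold satX
        rw [sum_congr rfl (fun p _ => bz_tb x (pos b p))]
        exact hx b hb
      simp [violX, h1]
  · rw [mul_zero, map_zero]
  · intro x y _ _ hx hy
    rw [mul_add, map_add, hx, hy, add_zero]
  · intro c x _ hx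
    rw [mul_smul_comm, map_smul, hx, smul_zero]

/-- Polynomials which vanish if a few conditions hold have pseudo-expectation zero. -/
theorem Ex_axiom (hE : Expd pos s) (T : Finset B) : ∀ d : ℕ, 4 * (d + 3 * T.card) ≤ s →
    ∀ g : (V → Bool) → ℝ, g ∈ DegLe ℝ false d → (∀ y, (∀ b ∈ T, satX pos rhs b y) → g y = 0) →
    Ex rhs hE g = 0 := by
  classical
  induction T using Finset.induction_on with
  | empty =>
    intro d _ g _ h
    have : g = 0 := by
      funext y
      exact h y (by simp)
    rw [this, map_zero]
  | insert b T hb ih =>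
    intro d hd g hg h
    rw [card_insert_of_notMem hb] at hd
    have e : g = violX pos rhs b * g + (1 - violX pos rhs b) * g := by ring
    have hp3 : (univ.image (pos b)).card ≤ 3 := by
      refine card_image_le.trans ?_
      rw [card_univ, Fintype.card_fin]
    have h1 : (1 - violX pos rhs b) * g ∈ DegLe ℝ false (3 + d) := by
      apply DegLe_mul _ hg
      apply Submodule.sub_mem _ (DegLe_one 3)
      exact Dep_le_DegLe ℝ false hp3 (violX_dep b)
    rw [e, map_add, Ex_viol hE (by omega) b hg, zero_add]
    apply ih (3 + d) (by omega) _ h1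
    intro y hy
    simp only [Pi.mul_apply, Pi.sub_apply, Pi.one_apply]
    by_cases hs : satX pos rhs b y
    · rw [h y, mul_zero]
      intro b' hb'
      rcases mem_insert.1 hb' with rfl | h2
      · exact hs
      · exact hy b' h2
    · simp [violX, hs]

end Pool.Agent.J6H27.EP
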