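import Mathlib
import Pool.Agent.J6H27.EP.Op
import Pool.Agent.J6H27.EP.Xor

/-!
A restriction and a partition of unity by the values of the nonlocal functions, such that all
monomials get small degree on each piece; the functional for sum-of-squares refutations.
-/

set_option autoImplicit false
set_option linter.unusedSectionVars false

namespace Pool.Agent.J6H27.EP

open Finset Pool.Agent.W939.PC

variable {V : Type} [Fintype V] [DecidableEq V]
variable {K : Type} [Field K] {ℓ : ℕ}

theorem pieces {q κ a b R : ℕ} (hq1 : 1 ≤ q) (hq : Fintype.card (Om ℓ) ^ κ ≤ q) (hκ : κ < ℓ)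
    {U : Type} (val : U → (V × Fin ℓ → Bool) → Bool)
    (base : Fin a → (V × Fin ℓ → Bool) → Bool) (hbase : ∀ i, Loc κ (base i))
    (wide : Fin b → Finset ((V × Fin ℓ → Bool) → Bool)) (hwide : ∀ i, ∀ g ∈ wide i, Loc κ g)
    (kind : ∀ u, Loc κ (val u) ∨ ∀ x x', (∀ i, base i x = base i x') →
      (∀ i, (∀ g ∈ wide i, g x = true) ↔ (∀ g ∈ wide i, g x' = true)) → val u x = val u x')
    (M : Finset (U →₀ ℕ)) (hM : M.card + b < 2 ^ R) :
    ∃ (ρ : V → Om ℓ) (θ : (Fin a → Bool) × (Fin b → Bool) → (V → Bool) → K),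
      (∑ α, θ α = 1) ∧ (∀ α, θ α * θ α = θ α) ∧
      (∀ α, θ α ∈ DegLe K false (κ * a + b * (Dk ℓ q κ * R))) ∧
      (∀ α, ∀ m ∈ M, ev K val ρ (MvPolynomial.monomial m 1) * θ α ∈
        DegLe K false (Dk ℓ q κ * R + (κ * a + b * (Dk ℓ q κ * R)))) ∧
      (∀ α u, ¬ Loc κ (val u) → ∀ y y', θ α y ≠ 0 → θ α y' ≠ 0 →
        val u (Phi ρ y) = val u (Phi ρ y')) := by
  classical
  set D := Dk ℓ q κ with hD
  let Gm : (U →₀ ℕ) → Finset ((V × Fin ℓ → Bool) → Bool) := fun m =>
    (m.support.filter (fun u => Loc κ (val u))).image val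
  have hGm : ∀ m, ∀ g ∈ Gm m, Loc κ g := by
    intro m g hg
    obtain ⟨u, hu, rfl⟩ := mem_image.1 hg
    exact (mem_filter.1 hu).2
  -- a good restriction
  obtain ⟨ρ, hρ1, hρ2⟩ : ∃ ρ : V → Om ℓ, (∀ m ∈ M, cj K (Gm m) ρ ∈ DegLe K false (D * R)) ∧
      (∀ i, cj K (wide i) ρ ∈ DegLe K false (D * R)) := by
    by_contra hcon
    push Not at hcon
    have hcov : (univ : Finset (V → Om ℓ)) ⊆
        M.biUnion (fun m => univ.filter (fun ρ : V → Om ℓ =>
          ¬ cj K (Gm m) ρ ∈ DegLe K false (D * R))) ∪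
        (univ : Finset (Fin b)).biUnion (fun i => univ.filter (fun ρ : V → Om ℓ =>
          ¬ cj K (wide i) ρ ∈ DegLe K false (D * R))) := by
      intro ρ _
      rw [mem_union, mem_biUnion, mem_biUnion]
      by_cases h : ∀ m ∈ M, cj K (Gm m) ρ ∈ DegLe K false (D * R)
      · right
        obtain ⟨i, hi⟩ := hcon ρ h
        exact ⟨i, mem_univ _, mem_filter.2 ⟨mem_univ _, hi⟩⟩
      · left
        push Not at h
        obtain ⟨m, hm, hm'⟩ := h
        exact ⟨m, hm, mem_filter.2 ⟨mem_univ _, hm'⟩⟩
    have h1 := ((card_le_card hcov).trans (card_union_le _ _)).trans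
      (Nat.add_le_add card_biUnion_le card_biUnion_le)
    have h2 : Fintype.card (V → Om ℓ) * 2 ^ R ≤
        (M.card + b) * Fintype.card (Om ℓ) ^ Fintype.card V := by
      rw [card_univ] at h1
      calc _ ≤ (∑ m ∈ M, (univ.filter (fun ρ : V → Om ℓ =>
              ¬ cj K (Gm m) ρ ∈ DegLe K false (D * R))).card +
            ∑ i : Fin b, (univ.filter (fun ρ : V → Om ℓ =>
              ¬ cj K (wide i) ρ ∈ DegLe K false (D * R))).card) * 2 ^ R :=
              Nat.mul_le_mul_right _ h1
        _ = ∑ m ∈ M, (univ.filter (fun ρ : V → Om ℓ =>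
              ¬ cj K (Gm m) ρ ∈ DegLe K false (D * R))).card * 2 ^ R +
            ∑ i : Fin b, (univ.filter (fun ρ : V → Om ℓ =>
              ¬ cj K (wide i) ρ ∈ DegLe K false (D * R))).card * 2 ^ R := by
              rw [add_mul, sum_mul, sum_mul]
        _ ≤ ∑ m ∈ M, Fintype.card (Om ℓ) ^ Fintype.card V +
            ∑ i : Fin b, Fintype.card (Om ℓ) ^ Fintype.card V := by
              apply Nat.add_le_add
              · exact sum_le_sum (fun m _ => switch K q κ hq1 hq κ le_rfl hκ R (Gm m) (hGm m))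
              · exact sum_le_sum (fun i _ => switch K q κ hq1 hq κ le_rfl hκ R (wide i) (hwide i))
        _ = _ := by
              rw [sum_const, sum_const, smul_eq_mul, smul_eq_mul, card_univ, Fintype.card_fin,
                ← add_mul]
    rw [Fintype.card_fun, mul_comm] at h2
    have hne : Nonempty (Om ℓ) := ⟨(⟨0, by omega⟩, fun _ => false)⟩
    have h3 : 0 < Fintype.card (Om ℓ) ^ Fintype.card V := by positivity
    have h4 := Nat.le_of_mul_le_mul_right h2 h3
    omega
  -- the pieces
  let θ : (Fin a → Bool) × (Fin b → Bool) → (V → Bool) → K := fun α y =>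
    if (∀ i, base i (Phi ρ y) = α.1 i) ∧
      (∀ i, decide (∀ g ∈ wide i, g (Phi ρ y) = true) = α.2 i) then 1 else 0
  have hsum : ∑ α, θ α = 1 := by
    funext y
    rw [Finset.sum_apply, Pi.one_apply]
    rw [sum_eq_single ((fun i => base i (Phi ρ y)),
      (fun i => decide (∀ g ∈ wide i, g (Phi ρ y) = true)))]
    · simp [θ]
    · intro α _ hne
      simp only [θ]
      rw [if_neg]
      rintro ⟨h1, h2⟩
      apply hne
      apply Prod.ext
      · funext i; exact (h1 i).symm
      · funext i; exact (h2 i).symm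
    · intro h
      exact absurd (mem_univ _) h
  set tt : ℕ := κ * a + b * (D * R) with htt
  have hθd : ∀ α, θ α ∈ DegLe K false tt := by
    intro α
    have e1 : θ α = (fun y : V → Bool => if (∀ i, base i (Phi ρ y) = α.1 i) then (1 : K) else 0) *
        ∏ i : Fin b, (if α.2 i = true then cj K (wide i) ρ else 1 - cj K (wide i) ρ) := by
      funext y
      rw [Pi.mul_apply, Finset.prod_apply]
      by_cases h1 : ∀ i, base i (Phi ρ y) = α.1 i
      · by_cases h2 : ∀ i, decide (∀ g ∈ wide i, g (Phi ρ y) = true) = α.2 i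
        · have h3 : ∀ i ∈ (univ : Finset (Fin b)),
              (if α.2 i = true then cj K (wide i) ρ else 1 - cj K (wide i) ρ) y = 1 := by
            intro i _
            have h4 := h2 i
            by_cases h5 : ∀ g ∈ wide i, g (Phi ρ y) = true
            · have h6 : α.2 i = true := by rw [← h4]; simpa using h5
              rw [if_pos h6]
              simp only [cj]
              rw [if_pos h5]
            · have h6 : ¬ α.2 i = true := by rw [← h4]; simpa using h5
              rw [if_neg h6]
              simp only [cj, Pi.sub_apply, Pi.one_apply]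
              rw [if_neg h5, sub_zero]
          rw [prod_eq_one h3]
          simp only [θ]
          rw [if_pos ⟨h1, h2⟩, if_pos h1, mul_one]
        · have h2' := h2
          push Not at h2'
          obtain ⟨i, hi⟩ := h2'
          have h3 : (if α.2 i = true then cj K (wide i) ρ else 1 - cj K (wide i) ρ) y = 0 := by
            by_cases h5 : ∀ g ∈ wide i, g (Phi ρ y) = true
            · have h6 : ¬ α.2 i = true := by
                intro h7
                apply hi
                rw [h7]
                simpa using h5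
              rw [if_neg h6]
              simp only [cj, Pi.sub_apply, Pi.one_apply]
              rw [if_pos h5, sub_self]
            · have h6 : α.2 i = true := by
                by_contra h7
                apply hi
                rw [Bool.not_eq_true] at h7
                rw [h7]
                simpa using h5
              rw [if_pos h6]
              simp only [cj]
              rw [if_neg h5]
          rw [prod_eq_zero (mem_univ i) h3, mul_zero]
          simp only [θ]
          rw [if_neg (fun h => h2 h.2)]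
      · simp only [θ]
        rw [if_neg (fun h => h1 h.1), if_neg h1, zero_mul]
    rw [e1]
    apply DegLe_mul
    · choose J hJc hJ using hbase
      apply Dep_le_DegLe K false (S := univ.biUnion (fun i => (J i).image Prod.fst))
      · calc _ ≤ ∑ i : Fin a, ((J i).image Prod.fst).card := card_biUnion_le
          _ ≤ ∑ i : Fin a, κ := sum_le_sum (fun i _ => card_image_le.trans (hJc i))
          _ = κ * a := by rw [sum_const, card_univ, Fintype.card_fin, smul_eq_mul, mul_comm]
      · intro y y' hyy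
        have : (∀ i, base i (Phi ρ y) = α.1 i) ↔ (∀ i, base i (Phi ρ y') = α.1 i) := by
          apply forall_congr'
          intro i
          rw [hJ i (Phi ρ y) (Phi ρ y')]
          intro j hj
          apply Phi_congr
          apply hyy
          rw [mem_biUnion]
          exact ⟨i, mem_univ _, mem_image_of_mem _ hj⟩
        simp only [this]
    · have := DegLe_prod (K := K) (V := V) (univ : Finset (Fin b))
        (fun i => if α.2 i = true then cj K (wide i) ρ else 1 - cj K (wide i) ρ) (D * R) (by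
          intro i _
          split_ifs
          · exact hρ2 i
          · exact Submodule.sub_mem _ (DegLe_one _) (hρ2 i))
      rwa [card_univ, Fintype.card_fin] at this
  have hidem : ∀ α, θ α * θ α = θ α := by
    intro α
    funext y
    simp only [Pi.mul_apply, θ]
    split_ifs <;> simp
  have hdet : ∀ α u, ¬ Loc κ (val u) → ∀ y y', θ α y ≠ 0 → θ α y' ≠ 0 →
      val u (Phi ρ y) = val u (Phi ρ y') := by
    intro α u hu y y' hy hy'
    have h1 : (∀ i, base i (Phi ρ y) = α.1 i) ∧
      (∀ i, decide (∀ g ∈ wide i, g (Phi ρ y) = true) = α.2 i) := by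
      by_contra h
      exact hy (if_neg h)
    have h2 : (∀ i, base i (Phi ρ y') = α.1 i) ∧
      (∀ i, decide (∀ g ∈ wide i, g (Phi ρ y') = true) = α.2 i) := by
      by_contra h
      exact hy' (if_neg h)
    apply (kind u).resolve_left hu
    · intro i
      rw [h1.1 i, h2.1 i]
    · intro i
      have h3 : decide (∀ g ∈ wide i, g (Phi ρ y) = true) =
        decide (∀ g ∈ wide i, g (Phi ρ y') = true) := by rw [h1.2 i, h2.2 i]
      simpa using h3
  -- degrees of monomials
  have hmon : ∀ α, ∀ m ∈ M, ev K val ρ (MvPolynomial.monomial m 1) * θ α ∈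
      DegLe K false (D * R + tt) := by
    intro α m hm
    by_cases hall : ∀ u ∈ m.support, ¬ Loc κ (val u) → ∀ y, θ α y ≠ 0 → val u (Phi ρ y) = true
    · have e1 : ev K val ρ (MvPolynomial.monomial m 1) * θ α = cj K (Gm m) ρ * θ α := by
        funext y
        simp only [Pi.mul_apply]
        by_cases h0 : θ α y = 0
        · rw [h0, mul_zero, mul_zero]
        · rw [ev_monomial]
          have : (∀ u ∈ m.support, val u (Phi ρ y) = true) ↔
              (∀ g ∈ Gm m, g (Phi ρ y) = true) := by
            constructor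
            · intro h g hg
              obtain ⟨u, hu, rfl⟩ := mem_image.1 hg
              exact h u (mem_filter.1 hu).1
            · intro h u hu
              by_cases hl : Loc κ (val u)
              · exact h (val u) (mem_image_of_mem _ (mem_filter.2 ⟨hu, hl⟩))
              · exact hall u hu hl y h0
          simp only [cj, this]
      rw [e1]
      exact DegLe_mul (hρ1 m hm) (hθd α)
    · push Not at hall
      obtain ⟨u, hu, hl, y0, hy0, hv⟩ := hall
      have e1 : ev K val ρ (MvPolynomial.monomial m 1) * θ α = 0 := by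
        funext y
        simp only [Pi.mul_apply, Pi.zero_apply]
        by_cases h0 : θ α y = 0
        · rw [h0, mul_zero]
        · rw [ev_monomial, if_neg, zero_mul]
          intro h
          apply hv
          rw [hdet α u hl y0 y hy0 h0]
          exact h u hu
      rw [e1]
      exact Submodule.zero_mem _
  exact ⟨ρ, θ, hsum, hidem, hθd, hmon, hdet⟩

/-- Nonnegative functions of few variables become nonnegative functions of few blocks. -/
theorem junta {κ : ℕ} {U : Type} (val : U → (V × Fin ℓ → Bool) → Bool) (ρ : V → Om ℓ)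
    (θ : (V → Bool) → ℝ)
    (hdet : ∀ u, ¬ Loc κ (val u) → ∀ y y', θ y ≠ 0 → θ y' ≠ 0 →
      val u (Phi ρ y) = val u (Phi ρ y')) (Q : Finset U) (G : (V × Fin ℓ → Bool) → ℝ)
    (hG0 : ∀ x, 0 ≤ G x) (hG : ∀ x x', (∀ u ∈ Q, val u x = val u x') → G x = G x') :
    ∃ (Z : Finset V) (G' : (V → Bool) → ℝ), Z.card ≤ κ * Q.card ∧ G' ∈ Dep ℝ Z ∧
      (∀ y, 0 ≤ G' y) ∧ ∀ y, θ y ≠ 0 → G' y = G (Phi ρ y) := by
  classical
  have hJ : ∀ u, ∃ J : Finset (V × Fin ℓ), J.card ≤ κ ∧ (Loc κ (val u) →
      ∀ x x' : V × Fin ℓ → Bool, (∀ i ∈ J, x i = x' i) → val u x = val u x') := by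
    intro u
    by_cases h : Loc κ (val u)
    · obtain ⟨J, h1, h2⟩ := h
      exact ⟨J, h1, fun _ => h2⟩
    · exact ⟨∅, by simp, fun h' => absurd h' h⟩
  choose J hJc hJ using hJ
  let Z : Finset V := Q.biUnion (fun u => (J u).image Prod.fst)
  have huniq : ∀ y y', θ y ≠ 0 → θ y' ≠ 0 → (∀ v ∈ Z, y v = y' v) →
      G (Phi ρ y) = G (Phi ρ y') := by
    intro y y' hy hy' hyy
    apply hG
    intro u hu
    by_cases h : Loc κ (val u)
    · apply hJ u h
      intro j hj
      apply Phi_congr
      apply hyy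
      rw [mem_biUnion]
      exact ⟨u, hu, mem_image_of_mem _ hj⟩
    · exact hdet u h y y' hy hy'
  let G' : (V → Bool) → ℝ := fun y => if h : ∃ y', θ y' ≠ 0 ∧ ∀ v ∈ Z, y v = y' v then
    G (Phi ρ h.choose) else 0
  refine ⟨Z, G', ?_, ?_, ?_, ?_⟩
  · calc Z.card ≤ ∑ u ∈ Q, ((J u).image Prod.fst).card := card_biUnion_le
      _ ≤ ∑ u ∈ Q, κ := sum_le_sum (fun u _ => card_image_le.trans (hJc u))
      _ = κ * Q.card := by rw [sum_const, smul_eq_mul, mul_comm]
  · intro y1 y2 h12
    simp only [G']
    by_cases h : ∃ y', θ y' ≠ 0 ∧ ∀ v ∈ Z, y1 v = y' v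
    · have h' : ∃ y', θ y' ≠ 0 ∧ ∀ v ∈ Z, y2 v = y' v := by
        obtain ⟨y', hy', hh⟩ := h
        exact ⟨y', hy', fun v hv => by rw [← h12 v hv, hh v hv]⟩
      rw [dif_pos h, dif_pos h']
      apply huniq _ _ h.choose_spec.1 h'.choose_spec.1
      intro v hv
      rw [← h.choose_spec.2 v hv, ← h'.choose_spec.2 v hv, h12 v hv]
    · have h' : ¬ ∃ y', θ y' ≠ 0 ∧ ∀ v ∈ Z, y2 v = y' v := by
        rintro ⟨y', hy', hh⟩
        exact h ⟨y', hy', fun v hv => by rw [h12 v hv, hh v hv]⟩
      rw [dif_neg h, dif_neg h']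
  · intro y
    simp only [G']
    split_ifs
    · exact hG0 _
    · exact le_rfl
  · intro y hy
    have h : ∃ y', θ y' ≠ 0 ∧ ∀ v ∈ Z, y v = y' v := ⟨y, hy, fun _ _ => rfl⟩
    simp only [G']
    rw [dif_pos h]
    exact huniq _ _ h.choose_spec.1 hy (fun v hv => (h.choose_spec.2 v hv).symm)

variable {B : Type} [Fintype B] [DecidableEq B]

/-- No sum-of-squares refutation with few monomials. -/
theorem no_sos {pos : B → Fin 3 → V} {rhs : B → ZMod 2} {s : ℕ} (hE : Expd pos s)
    {q κ a b c R : ℕ} (hq1 : 1 ≤ q) (hq : Fintype.card (Om ℓ) ^ κ ≤ q) (hκ : κ < ℓ)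
    {U : Type} (val : U → (V × Fin ℓ → Bool) → Bool)
    (base : Fin a → (V × Fin ℓ → Bool) → Bool) (hbase : ∀ i, Loc κ (base i))
    (wide : Fin b → Finset ((V × Fin ℓ → Bool) → Bool)) (hwide : ∀ i, ∀ g ∈ wide i, Loc κ g)
    (kind : ∀ u, Loc κ (val u) ∨ ∀ x x', (∀ i, base i x = base i x') →
      (∀ i, (∀ g ∈ wide i, g x = true) ↔ (∀ g ∈ wide i, g x' = true)) → val u x = val u x')
    (M : Finset (U →₀ ℕ)) (hM : M.card + b < 2 ^ R)
    (hs : 12 * (Dk ℓ q κ * ((b + 1) * R) + κ * a + κ * c) + 12 * c + 4 ≤ s)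
    {m t : ℕ} (G : Fin m → (V × Fin ℓ → Bool) → ℝ) (Q : Fin m → Finset U)
    (hQ : ∀ i, (Q i).card ≤ c) (hG0 : ∀ i x, 0 ≤ G i x)
    (hG : ∀ i x x', (∀ u ∈ Q i, val u x = val u x') → G i x = G i x')
    (h : Fin m → MvPolynomial U ℝ) (hh : ∀ i, (h i).support ⊆ M)
    (p : Fin t → MvPolynomial U ℝ) (hp : ∀ j, (p j).support ⊆ M)
    (hpT : ∀ j, ∃ T : Finset B, T.card ≤ c ∧
      ∀ x : V × Fin ℓ → Bool, (∀ b ∈ T, satX pos rhs b (fun v => par (fun i => x (v, i)))) →
        MvPolynomial.eval (fun u => if val u x = true then (1 : ℝ) else 0) (p j) = 0)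
    (hid : ∀ x : V × Fin ℓ → Bool,
      ∑ i, G i x * MvPolynomial.eval (fun u => if val u x = true then (1 : ℝ) else 0) (h i) ^ 2 +
        ∑ j, MvPolynomial.eval (fun u => if val u x = true then (1 : ℝ) else 0) (p j) = -1) :
    False := by
  classical
  obtain ⟨ρ, θ, hsum, hidem, hθd, hmon, hdet⟩ := pieces (K := ℝ) hq1 hq hκ val base hbase wide
    hwide kind M hM
  set D := Dk ℓ q κ with hD
  set tt : ℕ := κ * a + b * (D * R) with htt
  have hbound : D * R + tt = D * ((b + 1) * R) + κ * a := by rw [htt]; ring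
  obtain ⟨α, hα⟩ : ∃ α, 0 < Ex rhs hE (θ α) := by
    by_contra hcon
    push Not at hcon
    have h1 : Ex rhs hE (1 : (V → Bool) → ℝ) ≤ 0 := by
      rw [← hsum, map_sum]
      exact sum_nonpos (fun α _ => hcon α)
    rw [Ex_one] at h1
    linarith
  have hline : ∀ f : MvPolynomial U ℝ, f.support ⊆ M →
      ev ℝ val ρ f * θ α ∈ DegLe ℝ false (D * R + tt) := by
    intro f hf
    have e1 : f = ∑ m ∈ f.support, f.coeff m • MvPolynomial.monomial m (1 : ℝ) := by
      conv_lhs => rw [f.as_sum]
      apply sum_congr rfl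
      intro m _
      rw [MvPolynomial.smul_monomial, smul_eq_mul, mul_one]
    rw [e1, map_sum, sum_mul]
    apply Submodule.sum_mem
    intro m hm
    rw [map_smul, smul_mul_assoc]
    exact Submodule.smul_mem _ _ (hmon α m (hf hm))
  have hj := fun i => junta val ρ (θ α) (hdet α) (Q i) (G i) (hG0 i) (hG i)
  choose Z G' hZ hG'd hG'0 hG' using hj
  have hsq : ∀ i, 0 ≤ Ex rhs hE (((fun y => Real.sqrt (G' i y)) * (ev ℝ val ρ (h i) * θ α)) *
      ((fun y => Real.sqrt (G' i y)) * (ev ℝ val ρ (h i) * θ α))) := by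
    intro i
    apply Ex_sq hE (d := κ * c + (D * R + tt))
    · rw [hbound]
      omega
    · apply DegLe_mul _ (hline _ (hh i))
      apply Dep_le_DegLe ℝ false (S := Z i) ((hZ i).trans (Nat.mul_le_mul_left _ (hQ i)))
      intro y y' hyy
      show Real.sqrt (G' i y) = Real.sqrt (G' i y')
      rw [hG'd i y y' hyy]
  have hax : ∀ j, Ex rhs hE (ev ℝ val ρ (p j) * θ α) = 0 := by
    intro j
    obtain ⟨T, hT, hTp⟩ := hpT j
    apply Ex_axiom hE T (D * R + tt) _ _ (hline _ (hp j))
    · intro y hy
      rw [Pi.mul_apply, ev_apply, hTp (Phi ρ y), zero_mul]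
      intro b hb
      have : (fun v => par (fun i => Phi ρ y (v, i))) = y := funext (par_Phi ρ y)
      rw [this]
      exact hy b hb
    · rw [hbound]
      omega
  have hfun : ∑ i, ((fun y => Real.sqrt (G' i y)) * (ev ℝ val ρ (h i) * θ α)) *
      ((fun y => Real.sqrt (G' i y)) * (ev ℝ val ρ (h i) * θ α)) +
      ∑ j, ev ℝ val ρ (p j) * θ α = -θ α := by
    funext y
    rw [Pi.add_apply, Finset.sum_apply, Finset.sum_apply, Pi.neg_apply]
    by_cases h0 : θ α y = 0
    · simp [h0]
    · have h1 : θ α y * θ α y = θ α y := congrFun (hidem α) y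
      have h2 : θ α y = 1 := by
        have : θ α y * (θ α y - 1) = 0 := by rw [mul_sub, h1, mul_one, sub_self]
        rcases mul_eq_zero.1 this with h3 | h3
        · exact absurd h3 h0
        · linarith
      have h3 := hid (Phi ρ y)
      have e1 : ∀ i, (((fun y => Real.sqrt (G' i y)) * (ev ℝ val ρ (h i) * θ α)) *
          ((fun y => Real.sqrt (G' i y)) * (ev ℝ val ρ (h i) * θ α))) y =
          G i (Phi ρ y) * MvPolynomial.eval
            (fun u => if val u (Phi ρ y) = true then (1 : ℝ) else 0) (h i) ^ 2 := by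
        intro i
        simp only [Pi.mul_apply]
        rw [h2, ev_apply, mul_one]
        have h4 : Real.sqrt (G' i y) * Real.sqrt (G' i y) = G i (Phi ρ y) := by
          rw [Real.mul_self_sqrt (hG'0 i y), hG' i y h0]
        generalize MvPolynomial.eval
          (fun u => if val u (Phi ρ y) = true then (1 : ℝ) else 0) (h i) = w
        rw [← h4]
        ring
      have e2 : ∀ j, (ev ℝ val ρ (p j) * θ α) y = MvPolynomial.eval
            (fun u => if val u (Phi ρ y) = true then (1 : ℝ) else 0) (p j) := by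
        intro j
        rw [Pi.mul_apply, h2, ev_apply, mul_one]
      rw [sum_congr rfl (fun i _ => e1 i), sum_congr rfl (fun j _ => e2 j), h3, h2]
  have h4 := congrArg (Ex rhs hE) hfun
  rw [map_add, map_sum, map_sum, map_neg, sum_eq_zero (fun j _ => hax j), add_zero] at h4
  have h5 := sum_nonneg (fun i (_ : i ∈ (univ : Finset (Fin m))) => hsq i)
  rw [h4] at h5
  linarith

end Pool.Agent.J6H27.EP
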