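import Mathlib
import Pool.Agent.J6H27.EP.Final
import Pool.Agent.J6H27.EP.Sos

/-!
Sum-of-squares refutations with local and few nonlocal extension variables: definitions and the
lower bound.
-/

set_option autoImplicit false
set_option linter.unusedSectionVars false

namespace Pool.Agent.J6H27.EP

open Finset Filter Pool.Agent.W939.PC

/-- A sum-of-squares refutation of the clauses `F` with the extension variables `X`: polynomials
`h i` and `p j` in the variables and the extension variables, all whose monomials belong to `M`, and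
nonnegative functions `G i` of the values of at most `c` variables and extension variables, such
that

  `∑ i, G i * h i ^ 2 + ∑ j, p j = -1`

for all assignments, where each `p j` vanishes on all assignments which satisfy certain `c` clauses
of `F` (for instance, any multiple of the polynomial for the violation of a clause, or of an
extension axiom). -/
def SosRef {I : Type} {κ a b : ℕ} {E : Type} (F : Finset (Finset (I × Bool))) (c : ℕ)
    (X : Ext I κ a b E) (M : Finset ((I ⊕ E) →₀ ℕ)) : Prop :=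
  ∃ (m t : ℕ) (G : Fin m → (I → Bool) → ℝ) (h : Fin m → MvPolynomial (I ⊕ E) ℝ)
    (p : Fin t → MvPolynomial (I ⊕ E) ℝ),
    (∀ i, (∀ x, 0 ≤ G i x) ∧ (h i).support ⊆ M ∧ ∃ Q : Finset (I ⊕ E), Q.card ≤ c ∧
      ∀ x x', (∀ u ∈ Q, X.at ℝ x u = X.at ℝ x' u) → G i x = G i x') ∧
    (∀ j, (p j).support ⊆ M ∧ ∃ T ⊆ F, T.card ≤ c ∧
      ∀ x, (∀ C ∈ T, SatC x C) → MvPolynomial.eval (X.at ℝ x) (p j) = 0) ∧
    ∀ x, ∑ i, G i x * MvPolynomial.eval (X.at ℝ x) (h i) ^ 2 +
      ∑ j, MvPolynomial.eval (X.at ℝ x) (p j) = -1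

section formula

variable {N m ℓ n : ℕ}

/-- The lifted parity conditions. -/
def liftedX (pos : Fin m → Fin 3 → Fin N) (rhs : Fin m → ZMod 2)
    (emb : Fin N × Fin ℓ → Fin n) : Finset (Finset (Fin n × Bool)) :=
  ((univ : Finset (Fin m × (Fin 3 → Fin ℓ → Bool))).filter
    (fun z => ∑ p, bz (par (z.2 p)) ≠ rhs z.1)).image (fun z => clause pos emb z.1 z.2)

variable {pos : Fin m → Fin 3 → Fin N} {rhs : Fin m → ZMod 2}
  {emb : Fin N × Fin ℓ → Fin n}

theorem liftedX_width : ∀ C ∈ liftedX pos rhs emb, C.card ≤ 3 * ℓ := by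
  intro C hC
  obtain ⟨z, -, rfl⟩ := mem_image.1 hC
  exact clause_card z.1 z.2

theorem liftedX_card : (liftedX pos rhs emb).card ≤ m * 2 ^ (3 * ℓ) := by
  refine card_image_le.trans ((card_filter_le _ _).trans ?_)
  rw [card_univ, Fintype.card_prod, Fintype.card_fin, Fintype.card_fun, Fintype.card_fun,
    Fintype.card_bool, Fintype.card_fin, Fintype.card_fin, ← pow_mul, mul_comm ℓ 3]

theorem liftedX_unsat (h : ∀ y, ∃ b, ¬ satX pos rhs b y) (x : Fin n → Bool) :
    ∃ C ∈ liftedX pos rhs emb, ¬ SatC x C := by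
  obtain ⟨b, hb⟩ := h (fun v => par (fun i => x (emb (v, i))))
  refine ⟨clause pos emb b (fun p i => x (emb (pos b p, i))), ?_, ?_⟩
  · refine mem_image.2 ⟨(b, fun p i => x (emb (pos b p, i))), ?_, rfl⟩
    rw [mem_filter]
    exact ⟨mem_univ _, hb⟩
  · rw [satC_clause]
    rintro ⟨p, i, h⟩
    exact h rfl

theorem exists_baseX (hemb : Function.Injective emb) (T : Finset (Finset (Fin n × Bool)))
    (hT : T ⊆ liftedX pos rhs emb) : ∃ T' : Finset (Fin m), T'.card ≤ T.card ∧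
      ∀ x : Fin N × Fin ℓ → Bool, (∀ b ∈ T', satX pos rhs b (fun v => par (fun i => x (v, i)))) →
        ∀ C ∈ T, SatC (Function.extend emb x (fun _ => false)) C := by
  classical
  have h1 : ∀ C ∈ T, ∃ z : Fin m × (Fin 3 → Fin ℓ → Bool),
      (∑ p, bz (par (z.2 p)) ≠ rhs z.1) ∧ clause pos emb z.1 z.2 = C := by
    intro C hC
    obtain ⟨z, hz, rfl⟩ := mem_image.1 (hT hC)
    exact ⟨z, (mem_filter.1 hz).2, rfl⟩
  choose z hz1 hz2 using h1
  refine ⟨T.attach.image (fun C => (z C.1 C.2).1), ?_, ?_⟩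
  · refine card_image_le.trans ?_
    rw [card_attach]
  · intro x hx C hC
    have hp := hx (z C hC).1 (mem_image.2 ⟨⟨C, hC⟩, mem_attach _ _, rfl⟩)
    rw [← hz2 C hC, satC_clause]
    by_contra hcon
    push Not at hcon
    apply hz1 C hC
    rw [← hp]
    apply sum_congr rfl
    intro p _
    congr 2
    funext i
    rw [← hcon p i, hemb.extend_apply]

end formula

theorem coreX {N m ℓ n s : ℕ} {pos : Fin m → Fin 3 → Fin N} {rhs : Fin m → ZMod 2}
    {emb : Fin N × Fin ℓ → Fin n} (hemb : Function.Injective emb) (hE : Expd pos s)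
    {E : Type} {q κ a b c R : ℕ} (hq1 : 1 ≤ q)
    (hq : Fintype.card (Om ℓ) ^ (κ + 1) ≤ q) (hκ : κ + 1 < ℓ) (X : Ext (Fin n) κ a b E)
    (M : Finset ((Fin n ⊕ E) →₀ ℕ)) (hM : M.card + b < 2 ^ R)
    (hs : 12 * (Dk ℓ q (κ + 1) * ((b + 1) * R) + (κ + 1) * a + (κ + 1) * c) + 12 * c + 4 ≤ s) :
    ¬ SosRef (liftedX pos rhs emb) c X M := by
  classical
  rintro ⟨m', t, G, h, p, hG, hp, hid⟩
  let xt : (Fin N × Fin ℓ → Bool) → Fin n → Bool :=
    fun x => Function.extend emb x (fun _ => false)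
  let val : Fin n ⊕ E → (Fin N × Fin ℓ → Bool) → Bool := fun u x =>
    Sum.elim (fun j => xt x j) (fun e => X.val e (xt x)) u
  have hat : ∀ x, (fun u => if val u x = true then (1 : ℝ) else 0) = X.at ℝ (xt x) := by
    intro x
    funext u
    cases u <;> rfl
  choose Q hQ hGQ using fun i => (hG i).2.2
  refine no_sos (c := c) (rhs := rhs) hE hq1 hq hκ val
    (fun i x => X.base i (xt x)) (fun i => (Loc_comp hemb (X.base_loc i)).mono (Nat.le_succ κ))
    (fun i => ((fun g : (Fin n → Bool) → Bool => fun x => g (xt x)) '' X.wide i).toFinite.toFinset)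
    ?_ ?_ M hM hs (fun i x => G i (xt x)) Q hQ (fun i x => (hG i).1 (xt x)) ?_ h
    (fun i => (hG i).2.1) p (fun j => (hp j).1) ?_ ?_
  · intro i g hg
    rw [Set.Finite.mem_toFinset] at hg
    obtain ⟨g', hg', rfl⟩ := hg
    exact (Loc_comp hemb (X.wide_loc i g' hg')).mono (Nat.le_succ κ)
  · intro u
    cases u with
    | inl j =>
      left
      exact (Loc_comp hemb (Loc_var j)).mono (Nat.succ_le_succ (Nat.zero_le κ))
    | inr e =>
      rcases X.kind e with h | h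
      · left
        exact (Loc_comp hemb h).mono (Nat.le_succ κ)
      · right
        intro x x' h1 h2
        apply h (xt x) (xt x') h1
        intro i
        have h3 := h2 i
        simp only [Set.Finite.mem_toFinset, Set.mem_image, forall_exists_index, and_imp,
          forall_apply_eq_imp_iff₂] at h3
        exact h3
  · intro i x x' hxx
    apply hGQ i
    intro u hu
    rw [← hat, ← hat]
    simp only
    rw [hxx u hu]
  · intro j
    obtain ⟨T, hTF, hTc, hTp⟩ := (hp j).2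
    obtain ⟨T', hT', hTT⟩ := exists_baseX hemb T hTF
    refine ⟨T', hT'.trans hTc, fun x hx => ?_⟩
    rw [hat]
    exact hTp (xt x) (hTT x hx)
  · intro x
    rw [hat]
    exact hid (xt x)

theorem lowerX (κ : ℕ) : ∃ (w : ℕ) (δ : ℝ), 0 < δ ∧ ∀ᶠ n : ℕ in atTop,
    ∃ F : Finset (Finset (Fin n × Bool)), (∀ C ∈ F, C.card ≤ w) ∧ F.card ≤ w * n ∧
      (∀ x, ∃ C ∈ F, ¬ SatC x C) ∧
      ∀ (E : Type) (a b c R : ℕ) (X : Ext (Fin n) κ a b E)
        (M : Finset ((Fin n ⊕ E) →₀ ℕ)), (a : ℝ) ≤ δ * n → (c : ℝ) ≤ δ * n →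
        ((b : ℝ) + 1) * R ≤ δ * n → M.card + b < 2 ^ R → ¬ SosRef F c X M := by
  classical
  set ℓ : ℕ := κ + 2 with hℓ
  set q : ℕ := Fintype.card (Om ℓ) ^ (κ + 1) with hq
  have hne : Nonempty (Om ℓ) := ⟨(⟨0, by omega⟩, fun _ => false)⟩
  have hq1 : 1 ≤ q := Nat.one_le_pow _ _ Fintype.card_pos
  set D : ℕ := Dk ℓ q (κ + 1) with hD
  set Z : ℝ := 4 * (((2 : ℕ) : ℝ) * (Fintype.card (Fin 3) : ℕ) * ((Fintype.card (Fin 3) : ℕ) + 1) *
      Real.exp 1 ^ (Fintype.card (Fin 3) + 1)) with hZ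
  have hZ1 : 1 ≤ Z := by
    have h1 : (1 : ℝ) ≤ Real.exp 1 ^ (Fintype.card (Fin 3) + 1) := by
      apply one_le_pow₀
      have := Real.add_one_le_exp (1 : ℝ)
      linarith
    rw [hZ]
    rw [Fintype.card_fin] at h1 ⊢
    have e : (4 : ℝ) * (((2 : ℕ) : ℝ) * ((3 : ℕ) : ℝ) * (((3 : ℕ) : ℝ) + 1) *
        Real.exp 1 ^ (3 + 1)) = 96 * Real.exp 1 ^ (3 + 1) := by
      push_cast
      ring
    rw [e]
    linarith
  set γ : ℝ := 1 / Z with hγ
  have hZ0 : 0 < Z := by linarith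
  have hγ0 : 0 < γ := by positivity
  have hγ1 : γ ≤ 1 := by
    rw [hγ, div_le_one hZ0]
    exact hZ1
  have hγZ : γ * Z ≤ 1 := by
    rw [hγ, one_div, inv_mul_cancel₀ hZ0.ne']
  set W : ℝ := 12 * D + 24 * (κ + 1) + 12 with hW
  have hW0 : 0 < W := by positivity
  have hℓ0 : (0 : ℝ) < ℓ := by
    have : 0 < ℓ := by omega
    exact_mod_cast this
  refine ⟨3 * ℓ + 2 * 2 ^ (3 * ℓ), γ ^ 4 / (12 * ℓ * W), by positivity, ?_⟩
  have hev1 : ∀ᶠ n : ℕ in atTop, 2 * ℓ ≤ n := eventually_ge_atTop _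
  have hev2 : ∀ᶠ n : ℕ in atTop, 12 * (ℓ : ℝ) * 5 / γ ^ 4 ≤ (n : ℝ) :=
    (tendsto_natCast_atTop_atTop).eventually_ge_atTop _
  filter_upwards [hev1, hev2] with n hn1 hn2
  set N : ℕ := n / ℓ with hN
  have hN1 : N * ℓ ≤ n := Nat.div_mul_le_self n ℓ
  have hN2 : n ≤ 2 * (N * ℓ) := by
    have h1 := Nat.div_add_mod n ℓ
    have h2 := Nat.mod_lt n (show 0 < ℓ by omega)
    have h3 : ℓ * (n / ℓ) = N * ℓ := by rw [hN, mul_comm]
    rw [h3] at h1
    omega
  have hN0 : 1 ≤ N := by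
    rw [hN]
    exact (Nat.one_le_div_iff (by omega)).2 (by omega)
  obtain ⟨pos, hE⟩ := exists_expanding (P := Fin 3) (N := N) (m := 2 * N)
    (s := ⌊γ ^ 4 * N / 3⌋₊) (μ := 2) (γ := γ) (by omega) le_rfl hγ0 hγ1 hγZ (by
      have h1 : ((⌊γ ^ 4 * N / 3⌋₊ : ℕ) : ℝ) ≤ γ ^ 4 * N / 3 := Nat.floor_le (by positivity)
      rw [Fintype.card_fin]
      push_cast
      linarith)
  obtain ⟨rhs, hrhs⟩ := exists_unsatX pos (by
    rw [Fintype.card_fin, Fintype.card_fin]
    omega)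
  let emb : Fin N × Fin ℓ → Fin n := fun z => Fin.castLE hN1 (finProdFinEquiv z)
  have hemb : Function.Injective emb := by
    intro z z' h
    exact finProdFinEquiv.injective (Fin.castLE_injective hN1 h)
  refine ⟨liftedX pos rhs emb, ?_, ?_, ?_, ?_⟩
  · intro C hC
    exact (liftedX_width C hC).trans (Nat.le_add_right _ _)
  · calc _ ≤ 2 * N * 2 ^ (3 * ℓ) := liftedX_card
      _ ≤ 2 * n * 2 ^ (3 * ℓ) := by
          apply Nat.mul_le_mul_right
          apply Nat.mul_le_mul_left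
          exact Nat.div_le_self n ℓ
      _ = (2 * 2 ^ (3 * ℓ)) * n := by ring
      _ ≤ _ := Nat.mul_le_mul_right _ (Nat.le_add_left _ _)
  · exact liftedX_unsat hrhs
  · intro E a b c R X M ha hc hR hM
    refine coreX hemb hE hq1 le_rfl (by omega) X M hM ?_
    apply Nat.le_floor
    push_cast
    have hNn : (n : ℝ) ≤ 2 * (N * ℓ) := by exact_mod_cast hN2
    have h1 : γ ^ 4 / (12 * ℓ * W) * n * W = γ ^ 4 * n / (12 * ℓ) := by
      field_simp
    have h2 : γ ^ 4 * n / (12 * ℓ) ≤ γ ^ 4 * N / 6 := by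
      rw [div_le_div_iff₀ (by positivity) (by norm_num)]
      have : γ ^ 4 * n ≤ γ ^ 4 * (2 * (N * ℓ)) := mul_le_mul_of_nonneg_left hNn (by positivity)
      nlinarith
    have h3 : 5 ≤ γ ^ 4 * n / (12 * ℓ) := by
      rw [div_le_iff₀ (by positivity)] at hn2
      rw [le_div_iff₀ (by positivity)]
      linarith
    set x : ℝ := γ ^ 4 / (12 * ℓ * W) * n with hx
    have hD0 : (0 : ℝ) ≤ D := Nat.cast_nonneg _
    have hκ0 : (0 : ℝ) ≤ (κ : ℝ) + 1 := by positivity
    have h4 : (D : ℝ) * (((b : ℝ) + 1) * R) ≤ D * x := mul_le_mul_of_nonneg_left hR hD0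
    have h5 : ((κ : ℝ) + 1) * a ≤ (κ + 1) * x := mul_le_mul_of_nonneg_left ha hκ0
    have h5' : ((κ : ℝ) + 1) * c ≤ (κ + 1) * x := mul_le_mul_of_nonneg_left hc hκ0
    have h6 : x * W = 12 * (D * x + (κ + 1) * x + (κ + 1) * x) + 12 * x := by rw [hW]; ring
    have h7 : x * W ≤ γ ^ 4 * N / 6 := by rw [h1]; exact h2
    have h8 : 5 ≤ γ ^ 4 * N / 6 := h3.trans h2
    linarith

end Pool.Agent.J6H27.EP
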