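import Mathlib
import Pool.Agent.J6H27.EP.FinalS

/-!
The lower bounds for the polynomial calculus and for sums of squares, for the same formula.
-/

set_option autoImplicit false
set_option linter.unusedSectionVars false

namespace Pool.Agent.J6H27.EP

open Finset Filter Pool.Agent.W939.PC

section

variable {N m ℓ n : ℕ}

/-- The parity conditions which contain the given clauses. -/
def ruleX (sgn : Fin m → Fin 3 → Bool) : Fin m → ZMod 2 := fun b => ∑ p, bz (!(sgn b p)) + 1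

/-- The lifted clauses are clauses of the lifted parity conditions. -/
theorem lifted_sub (pos : Fin m → Fin 3 → Fin N) (sgn : Fin m → Fin 3 → Bool)
    (emb : Fin N × Fin ℓ → Fin n) :
    lifted pos sgn emb ⊆ liftedX pos (ruleX sgn) emb := by
  intro C hC
  obtain ⟨z, hz, rfl⟩ := mem_image.1 hC
  refine mem_image.2 ⟨z, ?_, rfl⟩
  rw [mem_filter] at hz ⊢
  refine ⟨mem_univ _, ?_⟩
  have h1 : ∑ p, bz (par (z.2 p)) = ∑ p, bz (!(sgn z.1 p)) := by
    apply sum_congr rfl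
    intro p _
    have h2 := hz.2 p
    congr 1
    cases h3 : par (z.2 p) <;> cases h4 : sgn z.1 p <;> simp_all
  rw [h1, ruleX]
  intro h
  have h5 : (1 : ZMod 2) = 0 := by
    have := congrArg (fun t => t - ∑ p, bz (!(sgn z.1 p))) h
    simpa using this.symm
  exact absurd h5 (by decide)

/-- More clauses make refutations easier. -/
theorem sosRef_mono {I : Type} {κ a b : ℕ} {E : Type} {F F' : Finset (Finset (I × Bool))}
    (hF : F ⊆ F') {c : ℕ} {X : Ext I κ a b E} {M : Finset ((I ⊕ E) →₀ ℕ)}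
    (h : SosRef F c X M) : SosRef F' c X M := by
  obtain ⟨m, t, G, h, p, hG, hp, hid⟩ := h
  refine ⟨m, t, G, h, p, hG, fun j => ⟨(hp j).1, ?_⟩, hid⟩
  obtain ⟨T, hT, h1⟩ := (hp j).2
  exact ⟨T, hT.trans hF, h1⟩

end

/-- **Exponential lower bounds for both systems and the same formula.** -/
theorem lowerBoth (κ : ℕ) : ∃ (w : ℕ) (δ : ℝ), 0 < δ ∧ ∀ᶠ n : ℕ in atTop,
    ∃ F : Finset (Finset (Fin n × Bool)), (∀ C ∈ F, C.card ≤ w) ∧ F.card ≤ w * n ∧
      (∀ x, ∃ C ∈ F, ¬ SatC x C) ∧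
      ∀ (E : Type) (a b c R : ℕ) (X : Ext (Fin n) κ a b E)
        (M : Finset ((Fin n ⊕ E) →₀ ℕ)), (a : ℝ) ≤ δ * n → (c : ℝ) ≤ δ * n →
        ((b : ℝ) + 1) * R ≤ δ * n → M.card + b < 2 ^ R →
        (∀ (K : Type) [Field K], ¬ Der K F c X M 1) ∧ ¬ SosRef F c X M := by
  classical
  set ℓ : ℕ := κ + 2 with hℓ
  set q : ℕ := Fintype.card (Om ℓ) ^ (κ + 1) with hq
  have hne : Nonempty (Om ℓ) := ⟨(⟨0, by omega⟩, fun _ => false)⟩
  have hq1 : 1 ≤ q := Nat.one_le_pow _ _ Fintype.card_pos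
  set D : ℕ := Dk ℓ q (κ + 1) with hD
  set Z : ℝ := 4 * (((6 : ℕ) : ℝ) * (Fintype.card (Fin 3) : ℕ) * ((Fintype.card (Fin 3) : ℕ) + 1) *
      Real.exp 1 ^ (Fintype.card (Fin 3) + 1)) with hZ
  have hZ1 : 1 ≤ Z := by
    have h1 : (1 : ℝ) ≤ Real.exp 1 ^ (Fintype.card (Fin 3) + 1) := by
      apply one_le_pow₀
      have := Real.add_one_le_exp (1 : ℝ)
      linarith
    rw [hZ]
    rw [Fintype.card_fin] at h1 ⊢
    have e : (4 : ℝ) * (((6 : ℕ) : ℝ) * ((3 : ℕ) : ℝ) * (((3 : ℕ) : ℝ) + 1) *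
        Real.exp 1 ^ (3 + 1)) = 288 * Real.exp 1 ^ (3 + 1) := by
      push_cast
      ring
    rw [e]
    linarith
  set γ : ℝ := 1 / Z with hγ
  have hZ0 : 0 < Z := by linarith
  have hγ0 : 0 < γ := by positivity
  have hγ1 : γ ≤ 1 := by
    rw [hγ, div_le_one hZ0]
    exact hZ1
  have hγZ : γ * Z ≤ 1 := by
    rw [hγ, one_div, inv_mul_cancel₀ hZ0.ne']
  set W : ℝ := 12 * D + 24 * (κ + 1) + 12 with hW
  have hW0 : 0 < W := by positivity
  have hℓ0 : (0 : ℝ) < ℓ := by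
    have : 0 < ℓ := by omega
    exact_mod_cast this
  refine ⟨3 * ℓ + 6 * 2 ^ (3 * ℓ), γ ^ 4 / (12 * ℓ * W), by positivity, ?_⟩
  have hev1 : ∀ᶠ n : ℕ in atTop, 2 * ℓ ≤ n := eventually_ge_atTop _
  have hev2 : ∀ᶠ n : ℕ in atTop, 12 * (ℓ : ℝ) * (4 * (κ + 1) + 5) / γ ^ 4 ≤ (n : ℝ) :=
    (tendsto_natCast_atTop_atTop).eventually_ge_atTop _
  filter_upwards [hev1, hev2] with n hn1 hn2
  set N : ℕ := n / ℓ with hN
  have hN1 : N * ℓ ≤ n := Nat.div_mul_le_self n ℓ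
  have hN2 : n ≤ 2 * (N * ℓ) := by
    have h1 := Nat.div_add_mod n ℓ
    have h2 := Nat.mod_lt n (show 0 < ℓ by omega)
    have h3 : ℓ * (n / ℓ) = N * ℓ := by rw [hN, mul_comm]
    rw [h3] at h1
    omega
  have hN0 : 1 ≤ N := by
    rw [hN]
    exact (Nat.one_le_div_iff (by omega)).2 (by omega)
  obtain ⟨pos, hE⟩ := exists_expanding (P := Fin 3) (N := N) (m := 6 * N)
    (s := ⌊γ ^ 4 * N / 3⌋₊) (μ := 6) (γ := γ) (by omega) le_rfl hγ0 hγ1 hγZ (by
      have h1 : ((⌊γ ^ 4 * N / 3⌋₊ : ℕ) : ℝ) ≤ γ ^ 4 * N / 3 := Nat.floor_le (by positivity)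
      rw [Fintype.card_fin]
      push_cast
      linarith)
  obtain ⟨sgn, hsgn⟩ := exists_unsat pos (by
    rw [Fintype.card_fin, Fintype.card_fin]
    exact pow_lt N hN0)
  let emb : Fin N × Fin ℓ → Fin n := fun z => Fin.castLE hN1 (finProdFinEquiv z)
  have hemb : Function.Injective emb := by
    intro z z' h
    exact finProdFinEquiv.injective (Fin.castLE_injective hN1 h)
  refine ⟨lifted pos sgn emb, ?_, ?_, ?_, ?_⟩
  · intro C hC
    exact (lifted_width C hC).trans (Nat.le_add_right _ _)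
  · calc _ ≤ 6 * N * 2 ^ (3 * ℓ) := lifted_card
      _ ≤ 6 * n * 2 ^ (3 * ℓ) := by
          apply Nat.mul_le_mul_right
          apply Nat.mul_le_mul_left
          exact Nat.div_le_self n ℓ
      _ = (6 * 2 ^ (3 * ℓ)) * n := by ring
      _ ≤ _ := Nat.mul_le_mul_right _ (Nat.le_add_left _ _)
  · exact lifted_unsat hsgn
  · intro E a b c R X M ha hc hR hM
    have hNn : (n : ℝ) ≤ 2 * (N * ℓ) := by exact_mod_cast hN2
    have h1 : γ ^ 4 / (12 * ℓ * W) * n * W = γ ^ 4 * n / (12 * ℓ) := by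
      field_simp
    have h2 : γ ^ 4 * n / (12 * ℓ) ≤ γ ^ 4 * N / 6 := by
      rw [div_le_div_iff₀ (by positivity) (by norm_num)]
      have : γ ^ 4 * n ≤ γ ^ 4 * (2 * (N * ℓ)) := mul_le_mul_of_nonneg_left hNn (by positivity)
      nlinarith
    have h3 : 4 * ((κ : ℝ) + 1) + 5 ≤ γ ^ 4 * n / (12 * ℓ) := by
      rw [div_le_iff₀ (by positivity)] at hn2
      rw [le_div_iff₀ (by positivity)]
      linarith
    set x : ℝ := γ ^ 4 / (12 * ℓ * W) * n with hx
    have hD0 : (0 : ℝ) ≤ D := Nat.cast_nonneg _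
    have hκ0 : (0 : ℝ) ≤ (κ : ℝ) + 1 := by positivity
    have hx0 : 0 ≤ x := by positivity
    have h4 : (D : ℝ) * (((b : ℝ) + 1) * R) ≤ D * x := mul_le_mul_of_nonneg_left hR hD0
    have h5 : ((κ : ℝ) + 1) * a ≤ (κ + 1) * x := mul_le_mul_of_nonneg_left ha hκ0
    have h5' : ((κ : ℝ) + 1) * c ≤ (κ + 1) * x := mul_le_mul_of_nonneg_left hc hκ0
    have h6 : x * W = 12 * (D * x + (κ + 1) * x + (κ + 1) * x) + 12 * x := by rw [hW]; ring
    have h7 : x * W ≤ γ ^ 4 * N / 6 := by rw [h1]; exact h2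
    have h8 : 4 * ((κ : ℝ) + 1) + 5 ≤ γ ^ 4 * N / 6 := h3.trans h2
    have h9 : 0 ≤ (κ + 1 : ℝ) * x := mul_nonneg hκ0 hx0
    have h10 : 0 ≤ (D : ℝ) * x := mul_nonneg hD0 hx0
    constructor
    · intro K _
      refine core hemb hE hq1 le_rfl (by omega) X M hM ?_
      apply Nat.le_floor
      push_cast
      linarith
    · intro hS
      refine coreX (rhs := ruleX sgn) hemb hE hq1 le_rfl (by omega) X M hM ?_
        (sosRef_mono (lifted_sub pos sgn emb) hS)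
      apply Nat.le_floor
      push_cast
      linarith

end Pool.Agent.J6H27.EP
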